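import Mathlib
import Pool.Agent.Helper85.SVG.Det

/-!
Limits of Schur complement entries, and the compactness argument: the last columns of strict GKK
matrices converging to a matrix whose last column vanishes above the diagonal, suitably normalised,
give a nonzero real solution of a system of weak linear inequalities.
-/

namespace Pool.Agent.Helper63.NG

open Matrix Finset Filter Topology Pool.Agent.Helper5.GKK Pool.Agent.Helper85.SVG
open scoped ComplexOrder

variable {n : ℕ}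

/-- the inverse of the principal submatrix `A(K)` -/
noncomputable def Q (A : Matrix (Fin n) (Fin n) ℂ) (K : Finset (Fin n)) : Matrix K K ℂ :=
  (A.submatrix (Subtype.val : K → Fin n) Subtype.val)⁻¹

/-- the coefficient of `A x j` in `- sc A K i j` -/
noncomputable def cf (A : Matrix (Fin n) (Fin n) ℂ) (K : Finset (Fin n)) (i : Fin n) (x : K) : ℂ :=
  ∑ y : K, A i y * Q A K y x

/-- the coefficient of `A i x` in `- sc A K i j` -/
noncomputable def cg (A : Matrix (Fin n) (Fin n) ℂ) (K : Finset (Fin n)) (j : Fin n) (x : K) : ℂ :=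
  ∑ y : K, Q A K x y * A y j

theorem sc_eq_cf (A : Matrix (Fin n) (Fin n) ℂ) (K : Finset (Fin n)) (i j : Fin n) :
    sc A K i j = A i j - ∑ x : K, cf A K i x * A x j := by
  rw [sc]
  congr 1
  rw [Finset.sum_comm]
  refine Finset.sum_congr rfl fun x _ => ?_
  rw [cf, Finset.sum_mul]
  rfl

theorem sc_eq_cg (A : Matrix (Fin n) (Fin n) ℂ) (K : Finset (Fin n)) (i j : Fin n) :
    sc A K i j = A i j - ∑ x : K, A i x * cg A K j x := by
  rw [sc]
  congr 1
  refine Finset.sum_congr rfl fun x _ => ?_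
  rw [cg, Finset.mul_sum]
  refine Finset.sum_congr rfl fun y _ => ?_
  rw [Q]; ring

variable {ι : Type*} {l : Filter ι}

theorem tendsto_inv {κ : Type*} [Fintype κ] [DecidableEq κ] {M : ι → Matrix κ κ ℂ} {M0 : Matrix κ κ ℂ}
    (h : ∀ x y, Tendsto (fun s => M s x y) l (𝓝 (M0 x y))) (h0 : M0.det ≠ 0) (x y : κ) :
    Tendsto (fun s => (M s)⁻¹ x y) l (𝓝 (M0⁻¹ x y)) := by
  have hM : Tendsto M l (𝓝 M0) := tendsto_pi_nhds.mpr fun x => tendsto_pi_nhds.mpr fun y => h x y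
  have hc : ContinuousAt (fun A : Matrix κ κ ℂ => A⁻¹ x y) M0 := by
    have : (fun A : Matrix κ κ ℂ => A⁻¹ x y) = fun A : Matrix κ κ ℂ => (A.det)⁻¹ * A.adjugate x y := by
      funext A
      rw [Matrix.inv_def, Ring.inverse_eq_inv']
      rfl
    rw [this]
    refine ContinuousAt.mul (ContinuousAt.inv₀ ?_ h0) ?_
    · exact (Continuous.matrix_det continuous_id).continuousAt
    · exact (continuous_apply_apply x y).continuousAt.comp
        (Continuous.matrix_adjugate continuous_id).continuousAt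
  exact hc.tendsto.comp hM

theorem tendsto_Q {A : ι → Matrix (Fin n) (Fin n) ℂ} {A0 : Matrix (Fin n) (Fin n) ℂ}
    {K : Finset (Fin n)} (h : ∀ x ∈ K, ∀ y ∈ K, Tendsto (fun s => A s x y) l (𝓝 (A0 x y)))
    (h0 : pm A0 K ≠ 0) (x y : K) : Tendsto (fun s => Q (A s) K x y) l (𝓝 (Q A0 K x y)) :=
  tendsto_inv (κ := K) (fun x y => h x.1 x.2 y.1 y.2) h0 x y

theorem tendsto_cf {A : ι → Matrix (Fin n) (Fin n) ℂ} {A0 : Matrix (Fin n) (Fin n) ℂ}
    {K : Finset (Fin n)} (h : ∀ x ∈ K, ∀ y ∈ K, Tendsto (fun s => A s x y) l (𝓝 (A0 x y)))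
    (h0 : pm A0 K ≠ 0) {i : Fin n} (hi : ∀ y ∈ K, Tendsto (fun s => A s i y) l (𝓝 (A0 i y))) (x : K) :
    Tendsto (fun s => cf (A s) K i x) l (𝓝 (cf A0 K i x)) := by
  unfold cf
  exact tendsto_finsetSum _ fun y _ => (hi y y.2).mul (tendsto_Q h h0 y x)

theorem tendsto_cg {A : ι → Matrix (Fin n) (Fin n) ℂ} {A0 : Matrix (Fin n) (Fin n) ℂ}
    {K : Finset (Fin n)} (h : ∀ x ∈ K, ∀ y ∈ K, Tendsto (fun s => A s x y) l (𝓝 (A0 x y)))
    (h0 : pm A0 K ≠ 0) {j : Fin n} (hj : ∀ y ∈ K, Tendsto (fun s => A s y j) l (𝓝 (A0 y j))) (x : K) :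
    Tendsto (fun s => cg (A s) K j x) l (𝓝 (cg A0 K j x)) := by
  unfold cg
  exact tendsto_finsetSum _ fun y _ => (tendsto_Q h h0 x y).mul (hj y y.2)

theorem tendsto_sc {A : ι → Matrix (Fin n) (Fin n) ℂ} {A0 : Matrix (Fin n) (Fin n) ℂ}
    {K : Finset (Fin n)} (h : ∀ x ∈ K, ∀ y ∈ K, Tendsto (fun s => A s x y) l (𝓝 (A0 x y)))
    (h0 : pm A0 K ≠ 0) {i j : Fin n} (hi : ∀ y ∈ K, Tendsto (fun s => A s i y) l (𝓝 (A0 i y)))
    (hj : ∀ y ∈ K, Tendsto (fun s => A s y j) l (𝓝 (A0 y j)))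
    (hij : Tendsto (fun s => A s i j) l (𝓝 (A0 i j))) :
    Tendsto (fun s => sc (A s) K i j) l (𝓝 (sc A0 K i j)) := by
  simp only [sc_eq_cf]
  exact hij.sub (tendsto_finsetSum _ fun x _ => (tendsto_cf h h0 hi x).mul (hj x x.2))

/-- products of almost principal Schur complement entries of a strict GKK matrix -/
theorem sc_mul_pos {A : Matrix (Fin n) (Fin n) ℂ} (hA : IsStrictGKK A) {K : Finset (Fin n)} {i j : Fin n}
    (hi : i ∉ K) (hj : j ∉ K) (hij : i ≠ j) : 0 < sc A K i j * sc A K j i := by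
  obtain ⟨hP, h⟩ := (isStrictGKK_iff A).mp hA
  have h1 := h K i j hi hj hij
  rw [ap_eq_pp A hP hi hj hij, pp_eq_sc A K (hP K).ne', pp_eq_sc A K (hP K).ne'] at h1
  obtain ⟨r, hr⟩ : ∃ r : ℝ, pm A K = r := ⟨(pm A K).re, (Complex.ext rfl (by
    simpa using (Complex.pos_iff.mp (hP K)).2.symm))⟩
  have hr0 : 0 < r := by
    have := hP K
    rw [hr] at this
    exact_mod_cast this
  rw [hr] at h1
  have h2 : ((r * r : ℝ) : ℂ) * (sc A K i j * sc A K j i) = r * sc A K i j * (r * sc A K j i) := by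
    push_cast; ring
  rw [← h2, Complex.pos_iff] at h1
  rw [Complex.pos_iff]
  rw [Complex.re_ofReal_mul, Complex.im_ofReal_mul] at h1
  have h3 : 0 < r * r := mul_pos hr0 hr0
  refine ⟨(mul_pos_iff_of_pos_left h3).mp h1.1, ?_⟩
  rcases mul_eq_zero.mp h1.2.symm with h | h
  · exact absurd h h3.ne'
  · exact h.symm

end Pool.Agent.Helper63.NG
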