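import Mathlib

/-!
The matrices that encode subset sum problems.
-/

namespace Pool.Agent.Helper63.NG

/-- The indices: `o = inl 0`, `e = inl 1`, `s = inl 2`, the items `inr (inl i)` and the pins
`inr (inr i)`, `i < k`. -/
abbrev Ix (k : ℕ) : Type := Fin 3 ⊕ (Fin k ⊕ Fin k)

/-- `t = 1 / (400 b (k+1)² (b+1)²)` -/
def tq (k b : ℕ) : ℚ := 1 / (400 * b * (k + 1) ^ 2 * (b + 1) ^ 2)

/-- `δ = 1 / (16 b (k+1))` -/
def dq (k b : ℕ) : ℚ := 1 / (16 * b * (k + 1))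

/-- The off-diagonal entries of the block without `o`, divided by `t`. -/
def Hq {k : ℕ} (w : Fin k → ℕ) (b : ℕ) : Ix k → Ix k → ℚ
  | Sum.inl 1, Sum.inl 2 => b + 1
  | Sum.inl 2, Sum.inl 1 => b - 1 / 2
  | Sum.inr (Sum.inl i), Sum.inl 2 => w i
  | Sum.inl 2, Sum.inr (Sum.inl i) => w i
  | Sum.inr (Sum.inl i), Sum.inr (Sum.inr j) => if i = j then 2 else dq k b
  | Sum.inr (Sum.inr j), Sum.inr (Sum.inl i) => if i = j then 1 else dq k b
  | Sum.inl 1, Sum.inr (Sum.inr _) => -(1 / 2)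
  | Sum.inr (Sum.inr _), Sum.inl 1 => -(1 - 1 / (4 * b))
  | _, _ => dq k b

/-- The row of `o`. -/
def xq {k : ℕ} (b : ℕ) : Ix k → ℚ
  | Sum.inl 0 => 1
  | Sum.inl 1 => 1
  | Sum.inl 2 => tq k b * (b + 1 / 2)
  | Sum.inr (Sum.inl _) => 1
  | Sum.inr (Sum.inr _) => tq k b

/-- The matrix attached to the subset sum problem with weights `w` and target `b`. -/
def ssM {k : ℕ} (w : Fin k → ℕ) (b : ℕ) : Matrix (Ix k) (Ix k) ℚ := fun x y =>
  if x = y then 1 else if y = Sum.inl 0 then 0 else if x = Sum.inl 0 then xq b y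
  else tq k b * Hq w b x y

end Pool.Agent.Helper63.NG
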