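import Mathlib
import Pool.Agent.Helper63.NG.Defs
import Pool.Agent.Helper21.GK.First

/-!
Estimates for matrices whose block without `o` is close to the identity.
-/

namespace Pool.Agent.Helper63.NG

open Matrix Finset Pool.Agent.Helper5.GKK Pool.Agent.Helper85.SVG Pool.Agent.Helper21.GK

variable {n : ℕ}

/-- the block without `o` is close to the identity -/
structure Sm (A : Matrix (Fin n) (Fin n) ℝ) (o : Fin n) (η m : ℝ) : Prop where
  diag : ∀ x, x ≠ o → A x x = 1
  off : ∀ x y, x ≠ o → y ≠ o → x ≠ y → |A x y| ≤ η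
  card : ∀ K : Finset (Fin n), o ∉ K → (K.card : ℝ) ≤ m
  small : m * η ≤ 1 / 4
  nonneg : 0 ≤ η
  mnonneg : 0 ≤ m

variable {A : Matrix (Fin n) (Fin n) ℝ} {o : Fin n} {η m : ℝ}

theorem Sm.close (h : Sm A o η m) {K : Finset (Fin n)} (ho : o ∉ K) :
    ∀ x ∈ K, ∀ y ∈ K, |A x y - (if x = y then 1 else 0)| ≤ η := by
  intro x hx y hy
  have hxo : x ≠ o := fun e => ho (e ▸ hx)
  have hyo : y ≠ o := fun e => ho (e ▸ hy)
  by_cases e : x = y
  · subst e
    rw [if_pos rfl, h.diag x hxo]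
    simpa using h.nonneg
  · rw [if_neg e, sub_zero]
    exact h.off x y hxo hyo e

theorem Sm.cardη (h : Sm A o η m) {K : Finset (Fin n)} (ho : o ∉ K) : (K.card : ℝ) * η ≤ 1 / 4 :=
  (mul_le_mul_of_nonneg_right (h.card K ho) h.nonneg).trans h.small

theorem Sm.sum_row (h : Sm A o η m) {K : Finset (Fin n)} (ho : o ∉ K) {i : Fin n} (hi : i ∉ K)
    (hio : i ≠ o) : ∑ x ∈ K, |A i x| ≤ m * η := by
  calc ∑ x ∈ K, |A i x| ≤ ∑ _x ∈ K, η := by
        refine Finset.sum_le_sum fun x hx => ?_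
        exact h.off i x hio (fun e => ho (e ▸ hx)) (fun e => hi (e ▸ hx))
    _ = K.card * η := by rw [Finset.sum_const, nsmul_eq_mul]
    _ ≤ m * η := mul_le_mul_of_nonneg_right (h.card K ho) h.nonneg

theorem Sm.sum_col (h : Sm A o η m) {K : Finset (Fin n)} (ho : o ∉ K) {j : Fin n} (hj : j ∉ K)
    (hjo : j ≠ o) : ∑ x ∈ K, |A x j| ≤ m * η := by
  calc ∑ x ∈ K, |A x j| ≤ ∑ _x ∈ K, η := by
        refine Finset.sum_le_sum fun x hx => ?_
        exact h.off x j (fun e => ho (e ▸ hx)) hjo (fun e => hj (e ▸ hx))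
    _ = K.card * η := by rw [Finset.sum_const, nsmul_eq_mul]
    _ ≤ m * η := mul_le_mul_of_nonneg_right (h.card K ho) h.nonneg

theorem Sm.sum_prod (h : Sm A o η m) {K : Finset (Fin n)} (ho : o ∉ K) {i j : Fin n} (hi : i ∉ K)
    (hio : i ≠ o) (hj : j ∉ K) (hjo : j ≠ o) : |∑ x ∈ K, A i x * A x j| ≤ m * η * η := by
  calc |∑ x ∈ K, A i x * A x j| ≤ ∑ x ∈ K, |A i x * A x j| := Finset.abs_sum_le_sum_abs _ _
    _ ≤ ∑ x ∈ K, |A i x| * η := by
        refine Finset.sum_le_sum fun x hx => ?_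
        rw [abs_mul]
        exact mul_le_mul_of_nonneg_left
          (h.off x j (fun e => ho (e ▸ hx)) hjo (fun e => hj (e ▸ hx))) (abs_nonneg _)
    _ = (∑ x ∈ K, |A i x|) * η := by rw [Finset.sum_mul]
    _ ≤ m * η * η := mul_le_mul_of_nonneg_right (h.sum_row ho hi hio) h.nonneg

theorem Sm.pmr_pos (h : Sm A o η m) : ∀ K : Finset (Fin n), o ∉ K → 0 < pmr A K := by
  intro K
  induction K using Finset.induction_on with
  | empty => intro _; rw [pmr_empty]; exact one_pos
  | insert k K hk ih =>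
    intro ho
    have hoK : o ∉ K := fun e => ho (mem_insert_of_mem e)
    have hko : k ≠ o := fun e => ho (e ▸ mem_insert_self k K)
    have hK := ih hoK
    rw [pmr_insert hK.ne' hk]
    refine mul_pos hK ?_
    have h1 := first_order_real A hK (h.close hoK) (h.cardη hoK) (h.sum_row hoK hk hko)
      (h.sum_col hoK hk hko) h.nonneg
    have h2 := h.sum_prod hoK hk hko hk hko
    rw [h.diag k hko] at h1
    have h3 := abs_le.mp h1
    have h4 := abs_le.mp h2
    have hm1 : (1 : ℝ) ≤ m := by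
      have := h.card {k} (by simpa using Ne.symm hko)
      simpa using this
    have h5 : η ≤ 1 / 4 := by
      have := mul_le_mul_of_nonneg_right hm1 h.nonneg
      linarith [h.small]
    have h6 : m * η * η ≤ 1 / 4 * (1 / 4) := mul_le_mul h.small h5 h.nonneg (by norm_num)
    have h7 : 2 * η * (m * η * (m * η)) ≤ 2 * (1 / 4) * (1 / 4 * (1 / 4)) := by
      have hmη : 0 ≤ m * η := mul_nonneg h.mnonneg h.nonneg
      refine mul_le_mul (by linarith) ?_ (mul_nonneg hmη hmη) (by norm_num)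
      exact mul_le_mul h.small h.small hmη (by norm_num)
    linarith [h3.1, h4.2]

/-- Schur complement entries inside the block -/
theorem Sm.scr_close (h : Sm A o η m) {K : Finset (Fin n)} (ho : o ∉ K) {i j : Fin n} (hi : i ∉ K)
    (hio : i ≠ o) (hj : j ∉ K) (hjo : j ≠ o) : |scr A K i j - A i j| ≤ 3 / 2 * (m * η * η) := by
  have h1 := first_order_real A (h.pmr_pos K ho) (h.close ho) (h.cardη ho) (h.sum_row ho hi hio)
    (h.sum_col ho hj hjo) h.nonneg
  have h2 := h.sum_prod ho hi hio hj hjo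
  have h3 := abs_le.mp h1
  have h4 := abs_le.mp h2
  have hmη : 0 ≤ m * η := mul_nonneg h.mnonneg h.nonneg
  have h5 : 2 * η * (m * η * (m * η)) ≤ 1 / 2 * (m * η * η) := by
    have : 2 * η * (m * η * (m * η)) = 2 * (m * η * η) * (m * η) := by ring
    rw [this]
    have h6 : 0 ≤ m * η * η := mul_nonneg hmη h.nonneg
    calc 2 * (m * η * η) * (m * η) ≤ 2 * (m * η * η) * (1 / 4) :=
          mul_le_mul_of_nonneg_left h.small (by linarith)
      _ = 1 / 2 * (m * η * η) := by ring
  rw [abs_le]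
  constructor <;> linarith [h3.1, h3.2, h4.1, h4.2]

/-- the row of `o`, with entries at most one -/
theorem Sm.scr_row (h : Sm A o η m) {K : Finset (Fin n)} (ho : o ∉ K) {i : Fin n} (hi : i ∉ K)
    (hio : i ≠ o) (hrow : ∀ x, x ≠ o → |A o x| ≤ 1) :
    |scr A K o i - (A o i - ∑ x ∈ K, A o x * A x i)| ≤ 2 * η * (m * (m * η)) := by
  refine first_order_real A (h.pmr_pos K ho) (h.close ho) (h.cardη ho) ?_ (h.sum_col ho hi hio) h.nonneg
  calc ∑ x ∈ K, |A o x| ≤ ∑ _x ∈ K, (1 : ℝ) :=
        Finset.sum_le_sum fun x hx => hrow x fun e => ho (e ▸ hx)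
    _ = K.card := by simp
    _ ≤ m := h.card K ho

/-- the column of `o`, with entries at most one -/
theorem Sm.scr_col (h : Sm A o η m) {K : Finset (Fin n)} (ho : o ∉ K) {i : Fin n} (hi : i ∉ K)
    (hio : i ≠ o) (hcol : ∀ x, x ≠ o → |A x o| ≤ 1) :
    |scr A K i o - (A i o - ∑ x ∈ K, A i x * A x o)| ≤ 2 * η * (m * (m * η)) := by
  have h1 := first_order_real A (h.pmr_pos K ho) (h.close ho) (h.cardη ho) (h.sum_row ho hi hio)
    (i := i) (j := o) (b := m) ?_ h.nonneg
  · refine h1.trans (le_of_eq (by ring))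
  calc ∑ x ∈ K, |A x o| ≤ ∑ _x ∈ K, (1 : ℝ) :=
        Finset.sum_le_sum fun x hx => hcol x fun e => ho (e ▸ hx)
    _ = K.card := by simp
    _ ≤ m := h.card K ho

/-- both factors are close to numbers of the same sign -/
theorem mul_pos_of_close {a a' x y e : ℝ} (h1 : |x - a| ≤ e) (h2 : |y - a'| ≤ e)
    (h : (e < a ∧ e < a') ∨ (a < -e ∧ a' < -e)) : 0 < x * y := by
  have h3 := abs_le.mp h1
  have h4 := abs_le.mp h2
  rcases h with h | h
  · exact mul_pos (by linarith) (by linarith)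
  · exact mul_pos_of_neg_of_neg (by linarith) (by linarith)

/-- changing the column `o` does not change the block -/
theorem Sm.updateCol (h : Sm A o η m) (z : Fin n → ℝ) : Sm (A.updateCol o z) o η m where
  diag x hx := by rw [Matrix.updateCol_ne hx]; exact h.diag x hx
  off x y hx hy hxy := by rw [Matrix.updateCol_ne hy]; exact h.off x y hx hy hxy
  card := h.card
  small := h.small
  nonneg := h.nonneg
  mnonneg := h.mnonneg

theorem pmr_updateCol (A : Matrix (Fin n) (Fin n) ℝ) {K : Finset (Fin n)} {o : Fin n} (ho : o ∉ K)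
    (z : Fin n → ℝ) : pmr (A.updateCol o z) K = pmr A K := by
  unfold pmr
  congr 1
  ext a b
  have hb : (b : Fin n) ≠ o := fun h => ho (h ▸ b.2)
  simp [hb]

theorem scr_updateCol (A : Matrix (Fin n) (Fin n) ℝ) {K : Finset (Fin n)} {o : Fin n} (ho : o ∉ K)
    (z : Fin n → ℝ) {i j : Fin n} (hj : j ≠ o) : scr (A.updateCol o z) K i j = scr A K i j := by
  have h1 : ppr (A.updateCol o z) K i j = ppr A K i j := by
    unfold ppr
    congr 1
    ext a b
    rcases b with b | b
    · have hb : (b : Fin n) ≠ o := fun h => ho (h ▸ b.2)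
      simp [hb]
    · simp [hj]
  rw [scr, scr, h1, pmr_updateCol A ho]

end Pool.Agent.Helper63.NG
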