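import Mathlib
import Pool.Agent.Helper63.NG.Est

/-!
The entries of the subset sum matrices.
-/

namespace Pool.Agent.Helper63.NG

open Matrix Finset Pool.Agent.Helper5.GKK Pool.Agent.Helper85.SVG Pool.Agent.Helper21.GK

variable {k n : ℕ}

/-- the real number `t` -/
noncomputable def tr (k b : ℕ) : ℝ := ((tq k b : ℚ) : ℝ)

/-- the real number `δ` -/
noncomputable def dr (k b : ℕ) : ℝ := ((dq k b : ℚ) : ℝ)

theorem tr_eq (k b : ℕ) : tr k b = 1 / (400 * b * (k + 1) ^ 2 * (b + 1) ^ 2) := by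
  unfold tr tq; push_cast; ring

theorem dr_eq (k b : ℕ) : dr k b = 1 / (16 * b * (k + 1)) := by
  unfold dr dq; push_cast; ring

theorem tr_pos {k b : ℕ} (hb : 1 ≤ b) : 0 < tr k b := by
  have : (0 : ℝ) < b := by exact_mod_cast hb
  rw [tr_eq]; positivity

theorem dr_pos {k b : ℕ} (hb : 1 ≤ b) : 0 < dr k b := by
  have : (0 : ℝ) < b := by exact_mod_cast hb
  rw [dr_eq]; positivity

/-- `400 b (k+1)² (b+1)² t = 1` -/
theorem tr_mul {k b : ℕ} (hb : 1 ≤ b) :
    400 * (b : ℝ) * ((k : ℝ) + 1) ^ 2 * ((b : ℝ) + 1) ^ 2 * tr k b = 1 := by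
  have : (0 : ℝ) < b := by exact_mod_cast hb
  rw [tr_eq]
  have h1 : (400 * (b : ℝ) * ((k : ℝ) + 1) ^ 2 * ((b : ℝ) + 1) ^ 2) ≠ 0 := by positivity
  field_simp

theorem dr_mul {k b : ℕ} (hb : 1 ≤ b) : 16 * (b : ℝ) * ((k : ℝ) + 1) * dr k b = 1 := by
  have : (0 : ℝ) < b := by exact_mod_cast hb
  rw [dr_eq]
  have h1 : (16 * (b : ℝ) * ((k : ℝ) + 1)) ≠ 0 := by positivity
  field_simp

/-- the block entries, real -/
noncomputable def Hr (w : Fin k → ℕ) (b : ℕ) (x y : Ix k) : ℝ := ((Hq w b x y : ℚ) : ℝ)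

/-- the real matrix -/
noncomputable def rA (w : Fin k → ℕ) (b : ℕ) (c : Fin n ≃ Ix k) : Matrix (Fin n) (Fin n) ℝ :=
  fun x y => ((ssM w b (c x) (c y) : ℚ) : ℝ)

section entries

variable (w : Fin k → ℕ) (b : ℕ) (c : Fin n ≃ Ix k)

/-- the index with a given name -/
abbrev ix (c : Fin n ≃ Ix k) (y : Ix k) : Fin n := c.symm y

theorem ix_ne {x y : Ix k} (h : x ≠ y) : ix c x ≠ ix c y := fun e => h (c.symm.injective e)

theorem rA_ix (x y : Ix k) : rA w b c (ix c x) (ix c y) = ((ssM w b x y : ℚ) : ℝ) := by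
  simp [rA, ix]

theorem rA_diag (x : Fin n) : rA w b c x x = 1 := by simp [rA, ssM]

theorem rA_col (x : Fin n) (hx : x ≠ ix c (Sum.inl 0)) : rA w b c x (ix c (Sum.inl 0)) = 0 := by
  have h : c x ≠ Sum.inl 0 := fun e => hx (by rw [ix, ← e, Equiv.symm_apply_apply])
  simp [rA, ssM, h]

theorem rA_block {x y : Ix k} (hx : x ≠ Sum.inl 0) (hy : y ≠ Sum.inl 0) (hxy : x ≠ y) :
    rA w b c (ix c x) (ix c y) = tr k b * Hr w b x y := by
  rw [rA_ix, ssM, if_neg hxy, if_neg hy, if_neg hx]
  push_cast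
  rfl

theorem rA_row {y : Ix k} (hy : y ≠ Sum.inl 0) :
    rA w b c (ix c (Sum.inl 0)) (ix c y) = ((xq b y : ℚ) : ℝ) := by
  rw [rA_ix, ssM, if_neg (Ne.symm hy), if_neg hy, if_pos rfl]

end entries

theorem Hr_abs {w : Fin k → ℕ} {b : ℕ} (hb : 1 ≤ b) (hw : ∀ i, w i ≤ b) (x y : Ix k) :
    |Hr w b x y| ≤ b + 1 := by
  have hb' : (1 : ℝ) ≤ b := by exact_mod_cast hb
  have hk : (0 : ℝ) ≤ k := Nat.cast_nonneg k
  have hw' : ∀ i, (w i : ℝ) ≤ b := fun i => by exact_mod_cast hw i
  have hd : |((dq k b : ℚ) : ℝ)| ≤ b + 1 := by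
    have h1 := dr_pos (k := k) hb
    have h2 := dr_mul (k := k) hb
    have h3 : dr k b ≤ 1 := by
      have : (1 : ℝ) ≤ 16 * (b : ℝ) * ((k : ℝ) + 1) := by nlinarith
      nlinarith
    change |dr k b| ≤ b + 1
    rw [abs_of_pos h1]; linarith
  have h4 : (0 : ℝ) < 1 / (4 * b) := by positivity
  have h5 : (1 : ℝ) / (4 * b) ≤ 1 / 4 := by
    apply one_div_le_one_div_of_le <;> linarith
  unfold Hr
  rcases x with x | x | x <;> rcases y with y | y | y
  · fin_cases x <;> fin_cases y <;> simp only [Hq] <;> try exact hd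
    all_goals (push_cast; rw [abs_le]; constructor <;> linarith)
  · fin_cases x <;> simp only [Hq] <;> try exact hd
    push_cast
    rw [abs_of_nonneg (Nat.cast_nonneg _)]; linarith [hw' y]
  · fin_cases x <;> simp only [Hq] <;> try exact hd
    push_cast
    rw [abs_le]; constructor <;> linarith
  · fin_cases y <;> simp only [Hq] <;> try exact hd
    push_cast
    rw [abs_of_nonneg (Nat.cast_nonneg _)]; linarith [hw' x]
  · exact hd
  · simp only [Hq]
    split_ifs
    · push_cast; rw [abs_le]; constructor <;> linarith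
    · exact hd
  · fin_cases y <;> simp only [Hq] <;> try exact hd
    push_cast
    rw [abs_le]; constructor <;> linarith
  · simp only [Hq]
    split_ifs
    · push_cast; rw [abs_le]; constructor <;> linarith
    · exact hd
  · exact hd

theorem Hr_sign {w : Fin k → ℕ} {b : ℕ} (hb : 1 ≤ b) (hw : ∀ i, 1 ≤ w i) (x y : Ix k) :
    (dr k b ≤ Hr w b x y ∧ dr k b ≤ Hr w b y x) ∨
      (Hr w b x y ≤ -dr k b ∧ Hr w b y x ≤ -dr k b) := by
  have hb' : (1 : ℝ) ≤ b := by exact_mod_cast hb
  have hk : (0 : ℝ) ≤ k := Nat.cast_nonneg k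
  have hw' : ∀ i, (1 : ℝ) ≤ w i := fun i => by exact_mod_cast hw i
  have h1 := dr_pos (k := k) hb
  have h2 := dr_mul (k := k) hb
  have h3 : dr k b ≤ 1 / 16 := by
    have : (1 : ℝ) ≤ (b : ℝ) * ((k : ℝ) + 1) := by nlinarith
    nlinarith
  have hd : ((dq k b : ℚ) : ℝ) = dr k b := rfl
  have h4 : (0 : ℝ) < 1 / (4 * b) := by positivity
  have h5 : (1 : ℝ) / (4 * b) ≤ 1 / 4 := by
    apply one_div_le_one_div_of_le <;> linarith
  unfold Hr
  rcases x with x | x | x <;> rcases y with y | y | y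
  · fin_cases x <;> fin_cases y <;> simp only [Hq] <;> push_cast <;> try rw [hd]
    all_goals (left; constructor <;> linarith)
  · have := hw' y
    fin_cases x <;> simp only [Hq] <;> push_cast <;> try rw [hd]
    all_goals (left; constructor <;> linarith)
  · fin_cases x <;> simp only [Hq] <;> push_cast <;> try rw [hd]
    · left; constructor <;> linarith
    · right; constructor <;> linarith
    · left; constructor <;> linarith
  · have := hw' x
    fin_cases y <;> simp only [Hq] <;> push_cast <;> try rw [hd]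
    all_goals (left; constructor <;> linarith)
  · simp only [Hq]; rw [hd]; left; constructor <;> linarith
  · simp only [Hq]
    left
    split_ifs
    · push_cast; constructor <;> linarith
    · rw [hd]; constructor <;> linarith
  · fin_cases y <;> simp only [Hq] <;> push_cast <;> try rw [hd]
    · left; constructor <;> linarith
    · right; constructor <;> linarith
    · left; constructor <;> linarith
  · simp only [Hq]
    left
    split_ifs
    · push_cast; constructor <;> linarith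
    · rw [hd]; constructor <;> linarith
  · simp only [Hq]; rw [hd]; left; constructor <;> linarith

end Pool.Agent.Helper63.NG
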