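import Mathlib
import Pool.Agent.Helper63.NG.Ent

/-!
Sums and first estimates for the subset sum matrices.
-/

namespace Pool.Agent.Helper63.NG

open Matrix Finset Pool.Agent.Helper5.GKK Pool.Agent.Helper85.SVG Pool.Agent.Helper21.GK

variable {k n : ℕ}

abbrev ixO (c : Fin n ≃ Ix k) : Fin n := ix c (Sum.inl 0)
abbrev ixE (c : Fin n ≃ Ix k) : Fin n := ix c (Sum.inl 1)
abbrev ixS (c : Fin n ≃ Ix k) : Fin n := ix c (Sum.inl 2)
abbrev ixI (c : Fin n ≃ Ix k) (i : Fin k) : Fin n := ix c (Sum.inr (Sum.inl i))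
abbrev ixP (c : Fin n ≃ Ix k) (i : Fin k) : Fin n := ix c (Sum.inr (Sum.inr i))

theorem sum_split (c : Fin n ≃ Ix k) {K : Finset (Fin n)} (ho : ixO c ∉ K) (f : Fin n → ℝ) :
    ∑ x ∈ K, f x = (if ixE c ∈ K then f (ixE c) else 0) + (if ixS c ∈ K then f (ixS c) else 0)
      + (∑ i, if ixI c i ∈ K then f (ixI c i) else 0)
      + ∑ j, if ixP c j ∈ K then f (ixP c j) else 0 := by
  have h1 : ∑ x ∈ K, f x = ∑ x, if x ∈ K then f x else 0 := by
    rw [← Finset.sum_filter, Finset.filter_mem_eq_inter, Finset.univ_inter]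
  rw [h1, ← Equiv.sum_comp c.symm, Fintype.sum_sum_type, Fintype.sum_sum_type, Fin.sum_univ_three]
  have h2 : c.symm (Sum.inl 0) ∉ K := ho
  rw [if_neg h2]
  ring

theorem card_eq (c : Fin n ≃ Ix k) : n = 2 * k + 3 := by
  have := Fintype.card_congr c
  simp at this
  omega

/-- `0 ≤ tiny ≤ t / (100 b)` -/
theorem tr_bounds {k b : ℕ} (hb : 1 ≤ b) :
    tr k b * (b + 1) * (2 * k + 2) ≤ 1 / 200 := by
  have hb' : (1 : ℝ) ≤ b := by exact_mod_cast hb
  have hk : (0 : ℝ) ≤ k := Nat.cast_nonneg k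
  have h := tr_mul (k := k) hb
  have ht := tr_pos (k := k) hb
  have h1 : (200 : ℝ) * (tr k b * (b + 1) * (2 * k + 2)) ≤
      400 * (b : ℝ) * ((k : ℝ) + 1) ^ 2 * ((b : ℝ) + 1) ^ 2 * tr k b := by
    have e1 : (1 : ℝ) ≤ (b : ℝ) * ((k : ℝ) + 1) * ((b : ℝ) + 1) := by
      have : (1 : ℝ) ≤ (b : ℝ) * ((k : ℝ) + 1) := by nlinarith
      nlinarith
    have e2 : (0 : ℝ) ≤ 400 * ((k : ℝ) + 1) * ((b : ℝ) + 1) * tr k b := by positivity
    have := mul_le_mul_of_nonneg_left e1 e2
    nlinarith
  linarith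

theorem rA_Sm {w : Fin k → ℕ} {b : ℕ} (hb : 1 ≤ b) (hw : ∀ i, w i ≤ b) (c : Fin n ≃ Ix k) :
    Sm (rA w b c) (ixO c) (tr k b * (b + 1)) (2 * k + 2) where
  diag x _ := rA_diag w b c x
  off x y hx hy hxy := by
    have hx' : c x ≠ Sum.inl 0 := fun e => hx (by rw [ixO, ix, ← e, Equiv.symm_apply_apply])
    have hy' : c y ≠ Sum.inl 0 := fun e => hy (by rw [ixO, ix, ← e, Equiv.symm_apply_apply])
    have hxy' : c x ≠ c y := fun e => hxy (c.injective e)
    have h := rA_block w b c hx' hy' hxy'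
    rw [ix, ix, Equiv.symm_apply_apply, Equiv.symm_apply_apply] at h
    rw [h, abs_mul, abs_of_pos (tr_pos hb)]
    exact mul_le_mul_of_nonneg_left (Hr_abs hb hw _ _) (tr_pos hb).le
  card K ho := by
    have h1 : K.card ≤ (univ.erase (ixO c)).card := by
      refine Finset.card_le_card fun x hx => ?_
      rw [mem_erase]
      exact ⟨fun e => ho (e ▸ hx), mem_univ _⟩
    rw [card_erase_of_mem (mem_univ _), card_univ, Fintype.card_fin] at h1
    have h2 : K.card ≤ 2 * k + 2 := by have := card_eq c; omega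
    exact_mod_cast h2
  small := by
    have := tr_bounds (k := k) hb
    linarith [this]
  nonneg := by have := tr_pos (k := k) hb; positivity
  mnonneg := by positivity

/-- the error of the first order estimates is at most `t / (50 b)` -/
theorem err_eq {k b : ℕ} (hb : 1 ≤ b) :
    2 * (tr k b * (b + 1)) * ((2 * k + 2) * ((2 * k + 2) * (tr k b * (b + 1)))) = tr k b / (50 * b) := by
  have hb' : (0 : ℝ) < b := by exact_mod_cast hb
  have h := tr_mul (k := k) hb
  rw [eq_div_iff (by positivity)]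
  calc 2 * (tr k b * (b + 1)) * ((2 * k + 2) * ((2 * k + 2) * (tr k b * (b + 1)))) * (50 * b)
      = (400 * (b : ℝ) * ((k : ℝ) + 1) ^ 2 * ((b : ℝ) + 1) ^ 2 * tr k b) * tr k b := by ring
    _ = tr k b := by rw [h, one_mul]

/-- a small sum -/
theorem sum_small {s : Fin k → Prop} [DecidablePred s] {f : Fin k → ℝ} {u : ℝ} (hu : 0 ≤ u)
    (h : ∀ i, s i → 0 ≤ f i ∧ f i ≤ u) :
    0 ≤ ∑ i, (if s i then f i else 0) ∧ ∑ i, (if s i then f i else 0) ≤ k * u := by
  constructor
  · refine Finset.sum_nonneg fun i _ => ?_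
    split_ifs with hi
    · exact (h i hi).1
    · exact le_rfl
  · calc ∑ i, (if s i then f i else 0) ≤ ∑ _i : Fin k, u := by
          refine Finset.sum_le_sum fun i _ => ?_
          split_ifs with hi
          · exact (h i hi).2
          · exact hu
      _ = k * u := by simp

/-- a sum with one main term -/
theorem sum_main {s : Fin k → Prop} [DecidablePred s] {f : Fin k → ℝ} {u : ℝ} (hu : 0 ≤ u) (j : Fin k)
    (h : ∀ i, i ≠ j → s i → 0 ≤ f i ∧ f i ≤ u) :
    (if s j then f j else 0) ≤ ∑ i, (if s i then f i else 0) ∧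
      ∑ i, (if s i then f i else 0) ≤ (if s j then f j else 0) + k * u := by
  have h1 := Finset.add_sum_erase univ (fun i => if s i then f i else 0) (mem_univ j)
  beta_reduce at h1
  have h2 : 0 ≤ ∑ i ∈ univ.erase j, (if s i then f i else 0) := by
    refine Finset.sum_nonneg fun i hi => ?_
    split_ifs with hs
    · exact (h i (ne_of_mem_erase hi) hs).1
    · exact le_rfl
  have h3 : ∑ i ∈ univ.erase j, (if s i then f i else 0) ≤ k * u := by
    calc ∑ i ∈ univ.erase j, (if s i then f i else 0) ≤ ∑ _i ∈ univ.erase j, u := by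
          refine Finset.sum_le_sum fun i hi => ?_
          split_ifs with hs
          · exact (h i (ne_of_mem_erase hi) hs).2
          · exact hu
      _ ≤ ∑ _i : Fin k, u := Finset.sum_le_sum_of_subset_of_nonneg (Finset.erase_subset _ _) fun _ _ _ => hu
      _ = k * u := by simp
  constructor <;> linarith

section entries

variable (w : Fin k → ℕ) (b : ℕ) (c : Fin n ≃ Ix k)

theorem rA_OE : rA w b c (ixO c) (ixE c) = 1 := by
  rw [rA_row w b c (by simp)]; simp [xq]

theorem rA_OS : rA w b c (ixO c) (ixS c) = tr k b * (b + 1 / 2) := by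
  rw [rA_row w b c (by simp)]; simp [xq, tr]

theorem rA_OI (i : Fin k) : rA w b c (ixO c) (ixI c i) = 1 := by
  rw [rA_row w b c (by simp)]; simp [xq]

theorem rA_OP (i : Fin k) : rA w b c (ixO c) (ixP c i) = tr k b := by
  rw [rA_row w b c (by simp)]; simp [xq, tr]

theorem rA_ES : rA w b c (ixE c) (ixS c) = tr k b * (b + 1) := by
  rw [rA_block w b c (by simp) (by simp) (by simp)]; simp [Hr, Hq]

theorem rA_SE : rA w b c (ixS c) (ixE c) = tr k b * (b - 1 / 2) := by
  rw [rA_block w b c (by simp) (by simp) (by simp)]; simp [Hr, Hq]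

theorem rA_IS (i : Fin k) : rA w b c (ixI c i) (ixS c) = tr k b * w i := by
  rw [rA_block w b c (by simp) (by simp) (by simp)]; simp [Hr, Hq]

theorem rA_SI (i : Fin k) : rA w b c (ixS c) (ixI c i) = tr k b * w i := by
  rw [rA_block w b c (by simp) (by simp) (by simp)]; simp [Hr, Hq]

theorem rA_PS (i : Fin k) : rA w b c (ixP c i) (ixS c) = tr k b * dr k b := by
  rw [rA_block w b c (by simp) (by simp) (by simp)]; simp [Hr, Hq, dr]

theorem rA_SP (i : Fin k) : rA w b c (ixS c) (ixP c i) = tr k b * dr k b := by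
  rw [rA_block w b c (by simp) (by simp) (by simp)]; simp [Hr, Hq, dr]

theorem rA_EP (i : Fin k) : rA w b c (ixE c) (ixP c i) = tr k b * (-(1 / 2)) := by
  rw [rA_block w b c (by simp) (by simp) (by simp)]; simp [Hr, Hq]

theorem rA_PE (i : Fin k) : rA w b c (ixP c i) (ixE c) = tr k b * (-(1 - 1 / (4 * b))) := by
  rw [rA_block w b c (by simp) (by simp) (by simp)]; simp [Hr, Hq]

theorem rA_IP (i j : Fin k) :
    rA w b c (ixI c i) (ixP c j) = if i = j then tr k b * 2 else tr k b * dr k b := by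
  rw [rA_block w b c (by simp) (by simp) (by simp)]
  simp only [Hr, Hq, dr]
  split_ifs <;> simp

theorem rA_PI (i j : Fin k) :
    rA w b c (ixP c j) (ixI c i) = if i = j then tr k b else tr k b * dr k b := by
  rw [rA_block w b c (by simp) (by simp) (by simp)]
  simp only [Hr, Hq, dr]
  split_ifs <;> simp

theorem rA_II (i j : Fin k) (h : i ≠ j) : rA w b c (ixI c i) (ixI c j) = tr k b * dr k b := by
  rw [rA_block w b c (by simp) (by simp) (by simpa using h)]; simp [Hr, Hq, dr]

theorem rA_PP (i j : Fin k) (h : i ≠ j) : rA w b c (ixP c i) (ixP c j) = tr k b * dr k b := by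
  rw [rA_block w b c (by simp) (by simp) (by simpa using h)]; simp [Hr, Hq, dr]

theorem rA_IE (i : Fin k) : rA w b c (ixI c i) (ixE c) = tr k b * dr k b := by
  rw [rA_block w b c (by simp) (by simp) (by simp)]; simp [Hr, Hq, dr]

theorem rA_EI (i : Fin k) : rA w b c (ixE c) (ixI c i) = tr k b * dr k b := by
  rw [rA_block w b c (by simp) (by simp) (by simp)]; simp [Hr, Hq, dr]

end entries

end Pool.Agent.Helper63.NG
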