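import Mathlib
import Pool.Agent.Helper63.NG.Sum

/-!
First order estimates for the row of `o`.
-/

namespace Pool.Agent.Helper63.NG

open Matrix Finset Pool.Agent.Helper5.GKK Pool.Agent.Helper85.SVG Pool.Agent.Helper21.GK

variable {k n : ℕ}

/-- the weight of the items in `K` -/
noncomputable def Wt (w : Fin k → ℕ) (c : Fin n ≃ Ix k) (K : Finset (Fin n)) : ℝ :=
  ∑ i, if ixI c i ∈ K then (w i : ℝ) else 0

theorem Wt_eq (w : Fin k → ℕ) (c : Fin n ≃ Ix k) (K : Finset (Fin n)) :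
    Wt w c K = ((∑ i ∈ univ.filter (fun i => ixI c i ∈ K), w i : ℕ) : ℝ) := by
  rw [Wt, Finset.sum_filter]
  push_cast
  rfl

theorem Wt_nonneg (w : Fin k → ℕ) (c : Fin n ≃ Ix k) (K : Finset (Fin n)) : 0 ≤ Wt w c K := by
  rw [Wt_eq]; positivity

/-- `1 / b`-free form of the error -/
noncomputable def er (k b : ℕ) : ℝ := tr k b / (100 * b)

theorem er_pos {k b : ℕ} (hb : 1 ≤ b) : 0 < er k b := by
  have hb' : (0 : ℝ) < b := by exact_mod_cast hb
  have := tr_pos (k := k) hb
  unfold er; positivity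

theorem er_mul {k b : ℕ} (hb : 1 ≤ b) : 100 * b * er k b = tr k b := by
  have hb' : (0 : ℝ) < b := by exact_mod_cast hb
  unfold er; field_simp

/-- `t δ (b + 1) + k t δ ≤ 1 / (100 b)` in the form needed -/
theorem tiny {k b : ℕ} (hb : 1 ≤ b) :
    tr k b * (tr k b * dr k b) * (k + b + 1) ≤ er k b := by
  have hb' : (1 : ℝ) ≤ b := by exact_mod_cast hb
  have hk : (0 : ℝ) ≤ k := Nat.cast_nonneg k
  have h := tr_mul (k := k) hb
  have ht := tr_pos (k := k) hb
  have hd := dr_mul (k := k) hb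
  have hd' := dr_pos (k := k) hb
  have he := er_mul (k := k) hb
  -- t (k + b + 1) ≤ 1 / 100
  have h1 : tr k b * (k + b + 1) ≤ 1 / 100 := by
    have h2 : (k : ℝ) + b + 1 ≤ (k + 1) * (b + 1) := by nlinarith
    have h3 := tr_bounds (k := k) hb
    nlinarith
  -- b δ ≤ 1 / 16
  have h4 : b * dr k b ≤ 1 / 16 := by
    have : (b : ℝ) * dr k b * (k + 1) = 1 / 16 := by linarith
    nlinarith [mul_nonneg (mul_nonneg (by linarith : (0 : ℝ) ≤ b) hd'.le) hk]
  have h5 : 100 * b * (tr k b * (tr k b * dr k b) * (k + b + 1)) ≤ 100 * b * er k b := by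
    rw [he]
    have h6 : tr k b * (k + b + 1) * (b * dr k b) ≤ 1 / 100 * (1 / 16) :=
      mul_le_mul h1 h4 (by positivity) (by norm_num)
    calc 100 * b * (tr k b * (tr k b * dr k b) * (k + b + 1))
        = 100 * (tr k b * (k + b + 1) * (b * dr k b)) * tr k b := by ring
      _ ≤ 100 * (1 / 100 * (1 / 16)) * tr k b := by
          refine mul_le_mul_of_nonneg_right ?_ ht.le
          linarith
      _ ≤ tr k b := by linarith
  have hb0 : (0 : ℝ) < 100 * b := by positivity
  exact le_of_mul_le_mul_left h5 hb0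

variable {w : Fin k → ℕ} {b : ℕ}

/-- entries of the row of `o` are at most one -/
theorem row_abs (hb : 1 ≤ b) (c : Fin n ≃ Ix k) (x : Fin n) :
    |rA w b c (ixO c) x| ≤ 1 := by
  have hb' : (1 : ℝ) ≤ b := by exact_mod_cast hb
  have hk : (0 : ℝ) ≤ k := Nat.cast_nonneg k
  have ht := tr_pos (k := k) hb
  have h3 := tr_bounds (k := k) hb
  have h4 : tr k b * (b + 1) ≤ 1 := by
    have : 0 ≤ tr k b * (b + 1) * (2 * k + 1) := by positivity
    nlinarith
  obtain ⟨y, rfl⟩ : ∃ y, x = ix c y := ⟨c x, by simp [ix]⟩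
  rcases y with y | y | y
  · fin_cases y
    · change |rA w b c (ixO c) (ixO c)| ≤ 1
      rw [rA_diag]; simp
    · change |rA w b c (ixO c) (ixE c)| ≤ 1
      rw [rA_OE]; simp
    · change |rA w b c (ixO c) (ixS c)| ≤ 1
      rw [rA_OS, abs_of_nonneg (by positivity)]
      nlinarith
  · change |rA w b c (ixO c) (ixI c y)| ≤ 1
    rw [rA_OI]; simp
  · change |rA w b c (ixO c) (ixP c y)| ≤ 1
    rw [rA_OP, abs_of_pos ht]; nlinarith

/-- the row estimate at `s` -/
theorem row_S (hb : 1 ≤ b) (hw : ∀ i, w i ≤ b) (c : Fin n ≃ Ix k) {K : Finset (Fin n)}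
    (ho : ixO c ∉ K) (hS : ixS c ∉ K) :
    |scr (rA w b c) K (ixO c) (ixS c) - tr k b * (b + 1 / 2 - (if ixE c ∈ K then (b : ℝ) + 1 else 0)
      - Wt w c K)| ≤ 3 * er k b := by
  have hb' : (1 : ℝ) ≤ b := by exact_mod_cast hb
  have ht := tr_pos (k := k) hb
  have hd' := dr_pos (k := k) hb
  have h1 := (rA_Sm hb hw c).scr_row ho hS (ix_ne c (by simp)) fun x _ => row_abs hb c x
  rw [err_eq hb, sum_split c ho, if_neg hS] at h1
  have h2 : (∑ i, if ixI c i ∈ K then rA w b c (ixO c) (ixI c i) * rA w b c (ixI c i) (ixS c) else 0)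
      = tr k b * Wt w c K := by
    rw [Wt, Finset.mul_sum]
    refine Finset.sum_congr rfl fun i _ => ?_
    rw [rA_OI, rA_IS]
    split_ifs <;> ring
  have h3 := sum_small (s := fun j => ixP c j ∈ K)
    (f := fun j => rA w b c (ixO c) (ixP c j) * rA w b c (ixP c j) (ixS c))
    (u := tr k b * (tr k b * dr k b)) (by positivity) fun j _ => by
      rw [rA_OP, rA_PS]; exact ⟨by positivity, le_rfl⟩
  rw [h2, rA_OS, rA_OE, rA_ES] at h1
  have h4 := tiny (k := k) hb
  have h5 : (k : ℝ) * (tr k b * (tr k b * dr k b)) ≤ er k b := by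
    refine le_trans ?_ h4
    have : 0 ≤ tr k b * (tr k b * dr k b) * (b + 1) := by positivity
    linarith
  have h6 : tr k b / (50 * b) = 2 * er k b := by unfold er; ring
  rw [h6] at h1
  have h7 := abs_le.mp h1
  rw [abs_le]
  split_ifs at h7 ⊢ <;> constructor <;> linarith [h7.1, h7.2, h3.1, h3.2]

/-- the row estimate at a pin -/
theorem row_P (hb : 1 ≤ b) (hw : ∀ i, w i ≤ b) (c : Fin n ≃ Ix k) {K : Finset (Fin n)}
    (ho : ixO c ∉ K) (j : Fin k) (hP : ixP c j ∉ K) :
    tr k b * (1 + (if ixE c ∈ K then 1 / 2 else 0) - (if ixI c j ∈ K then 2 else 0)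
        - k * dr k b) - 3 * er k b ≤ scr (rA w b c) K (ixO c) (ixP c j) ∧
      scr (rA w b c) K (ixO c) (ixP c j) ≤
        tr k b * (1 + (if ixE c ∈ K then 1 / 2 else 0) - (if ixI c j ∈ K then 2 else 0))
          + 3 * er k b := by
  have hb' : (1 : ℝ) ≤ b := by exact_mod_cast hb
  have hk : (0 : ℝ) ≤ k := Nat.cast_nonneg k
  have ht := tr_pos (k := k) hb
  have hd' := dr_pos (k := k) hb
  have h1 := (rA_Sm hb hw c).scr_row ho hP (ix_ne c (by simp)) fun x _ => row_abs hb c x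
  rw [err_eq hb, sum_split c ho] at h1
  have h2 := sum_main (s := fun i => ixI c i ∈ K)
    (f := fun i => rA w b c (ixO c) (ixI c i) * rA w b c (ixI c i) (ixP c j))
    (u := tr k b * dr k b) (by positivity) j fun i hi _ => by
      rw [rA_OI, rA_IP, if_neg hi, one_mul]; exact ⟨by positivity, le_rfl⟩
  have h3 := sum_small (s := fun i => ixP c i ∈ K)
    (f := fun i => rA w b c (ixO c) (ixP c i) * rA w b c (ixP c i) (ixP c j))
    (u := tr k b * (tr k b * dr k b)) (by positivity) fun i hi => by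
      have hij : i ≠ j := fun e => hP (e ▸ hi)
      rw [rA_OP, rA_PP w b c i j hij]; exact ⟨by positivity, le_rfl⟩
  have h8 : rA w b c (ixI c j) (ixP c j) = tr k b * 2 := by rw [rA_IP, if_pos rfl]
  simp only [rA_OI, h8, one_mul] at h2
  simp only [rA_OI, one_mul] at h1
  rw [rA_OP, rA_OE, rA_EP, rA_OS, rA_SP] at h1
  have h4 := tiny (k := k) hb
  have h5 : (k : ℝ) * (tr k b * (tr k b * dr k b)) + tr k b * (b + 1 / 2) * (tr k b * dr k b) ≤ er k b := by
    refine le_trans ?_ h4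
    have : 0 ≤ tr k b * (tr k b * dr k b) * (1 / 2) := by positivity
    linarith
  have h9 : 0 ≤ tr k b * (b + 1 / 2) * (tr k b * dr k b) := by positivity
  have h10 : 0 ≤ (k : ℝ) * (tr k b * (tr k b * dr k b)) := by positivity
  have h6 : tr k b / (50 * b) = 2 * er k b := by unfold er; ring
  rw [h6] at h1
  have h7 := abs_le.mp h1
  have he := er_pos (k := k) hb
  split_ifs at h7 h2 ⊢ <;> constructor <;> linarith [h7.1, h7.2, h3.1, h3.2, h2.1, h2.2]

end Pool.Agent.Helper63.NG
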