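import Mathlib
import Pool.Agent.Helper63.NG.Row

/-!
First order estimates for the column of `o` in the perturbed matrix.
-/

namespace Pool.Agent.Helper63.NG

open Matrix Finset Pool.Agent.Helper5.GKK Pool.Agent.Helper85.SVG Pool.Agent.Helper21.GK

variable {k n : ℕ}

/-- the column used for the perturbation -/
noncomputable def vr (b : ℕ) : Ix k → ℝ
  | Sum.inl 0 => 1
  | Sum.inl 1 => 1
  | Sum.inl 2 => tr k b * (b - 3 / 4)
  | Sum.inr (Sum.inl _) => 1
  | Sum.inr (Sum.inr _) => tr k b * (1 / (8 * b))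

/-- the column, for the given numbering -/
noncomputable def vc (b : ℕ) (c : Fin n ≃ Ix k) (x : Fin n) : ℝ := vr b (c x)

section

variable (b : ℕ) (c : Fin n ≃ Ix k)

theorem vc_O : vc b c (ixO c) = 1 := by simp [vc, vr]
theorem vc_E : vc b c (ixE c) = 1 := by simp [vc, vr]
theorem vc_S : vc b c (ixS c) = tr k b * (b - 3 / 4) := by simp [vc, vr]
theorem vc_I (i : Fin k) : vc b c (ixI c i) = 1 := by simp [vc, vr]
theorem vc_P (i : Fin k) : vc b c (ixP c i) = tr k b * (1 / (8 * b)) := by simp [vc, vr]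

end

variable {w : Fin k → ℕ} {b : ℕ}

theorem col_abs (hb : 1 ≤ b) (c : Fin n ≃ Ix k) (x : Fin n) : |vc b c x| ≤ 1 := by
  have hb' : (1 : ℝ) ≤ b := by exact_mod_cast hb
  have hk : (0 : ℝ) ≤ k := Nat.cast_nonneg k
  have ht := tr_pos (k := k) hb
  have h3 := tr_bounds (k := k) hb
  have h4 : tr k b * (b + 1) ≤ 1 := by
    have : 0 ≤ tr k b * (b + 1) * (2 * k + 1) := by positivity
    nlinarith
  have h5 : (1 : ℝ) / (8 * b) ≤ 1 := by
    rw [div_le_one (by positivity)]; linarith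
  have h6 : (0 : ℝ) < 1 / (8 * b) := by positivity
  obtain ⟨y, rfl⟩ : ∃ y, x = ix c y := ⟨c x, by simp [ix]⟩
  rcases y with y | y | y
  · fin_cases y
    · change |vc b c (ixO c)| ≤ 1
      rw [vc_O]; simp
    · change |vc b c (ixE c)| ≤ 1
      rw [vc_E]; simp
    · change |vc b c (ixS c)| ≤ 1
      rw [vc_S, abs_of_nonneg (mul_nonneg ht.le (by linarith))]
      nlinarith
  · change |vc b c (ixI c y)| ≤ 1
    rw [vc_I]; simp
  · change |vc b c (ixP c y)| ≤ 1
    rw [vc_P, abs_of_pos (by positivity)]; nlinarith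

/-- the perturbed matrix (before scaling its column) -/
noncomputable def vA (w : Fin k → ℕ) (b : ℕ) (c : Fin n ≃ Ix k) : Matrix (Fin n) (Fin n) ℝ :=
  (rA w b c).updateCol (ixO c) (vc b c)

theorem vA_O (c : Fin n ≃ Ix k) (x : Fin n) : vA w b c x (ixO c) = vc b c x := by
  simp [vA]

theorem vA_ne (c : Fin n ≃ Ix k) (x : Fin n) {y : Fin n} (hy : y ≠ ixO c) :
    vA w b c x y = rA w b c x y := by
  simp [vA, hy]

theorem vA_Sm (hb : 1 ≤ b) (hw : ∀ i, w i ≤ b) (c : Fin n ≃ Ix k) :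
    Sm (vA w b c) (ixO c) (tr k b * (b + 1)) (2 * k + 2) := (rA_Sm hb hw c).updateCol _

theorem vcol_abs (hb : 1 ≤ b) (c : Fin n ≃ Ix k) (x : Fin n) :
    |vA w b c x (ixO c)| ≤ 1 := by
  rw [vA_O]; exact col_abs hb c x

/-- the column estimate at `s` -/
theorem col_S (hb : 1 ≤ b) (hw : ∀ i, w i ≤ b) (c : Fin n ≃ Ix k) {K : Finset (Fin n)}
    (ho : ixO c ∉ K) (hS : ixS c ∉ K) :
    |scr (vA w b c) K (ixS c) (ixO c) - tr k b * (b - 3 / 4 - (if ixE c ∈ K then (b : ℝ) - 1 / 2 else 0)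
      - Wt w c K)| ≤ 3 * er k b := by
  have hb' : (1 : ℝ) ≤ b := by exact_mod_cast hb
  have ht := tr_pos (k := k) hb
  have hd' := dr_pos (k := k) hb
  have h1 := (vA_Sm hb hw c).scr_col ho hS (ix_ne c (by simp)) fun x _ => vcol_abs hb c x
  rw [err_eq hb, sum_split c ho, if_neg hS] at h1
  have h2 : (∑ i, if ixI c i ∈ K then vA w b c (ixS c) (ixI c i) * vA w b c (ixI c i) (ixO c) else 0)
      = tr k b * Wt w c K := by
    rw [Wt, Finset.mul_sum]
    refine Finset.sum_congr rfl fun i _ => ?_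
    rw [vA_O, vc_I, vA_ne c _ (ix_ne c (by simp)), rA_SI]
    split_ifs <;> ring
  have hb8 : (1 : ℝ) / (8 * b) ≤ 1 := by
    rw [div_le_one (by positivity)]; linarith
  have h3 := sum_small (s := fun j => ixP c j ∈ K)
    (f := fun j => vA w b c (ixS c) (ixP c j) * vA w b c (ixP c j) (ixO c))
    (u := tr k b * (tr k b * dr k b)) (by positivity) fun j _ => by
      rw [vA_O, vc_P, vA_ne c _ (ix_ne c (by simp)), rA_SP]
      refine ⟨by positivity, ?_⟩
      have h0 : 0 ≤ tr k b * dr k b * tr k b := by positivity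
      nlinarith
  rw [h2, vA_O, vA_O, vc_S, vc_E, vA_ne c _ (ix_ne c (by simp)), rA_SE] at h1
  have h4 := tiny (k := k) hb
  have h5 : (k : ℝ) * (tr k b * (tr k b * dr k b)) ≤ er k b := by
    refine le_trans ?_ h4
    have : 0 ≤ tr k b * (tr k b * dr k b) * (b + 1) := by positivity
    linarith
  have h6 : tr k b / (50 * b) = 2 * er k b := by unfold er; ring
  rw [h6] at h1
  have h7 := abs_le.mp h1
  rw [abs_le]
  split_ifs at h7 ⊢ <;> constructor <;> linarith [h7.1, h7.2, h3.1, h3.2]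

/-- the column estimate at a pin -/
theorem col_P (hb : 1 ≤ b) (hw : ∀ i, w i ≤ b) (c : Fin n ≃ Ix k) {K : Finset (Fin n)}
    (ho : ixO c ∉ K) (j : Fin k) (hP : ixP c j ∉ K) :
    tr k b * (1 / (8 * b) + (if ixE c ∈ K then 1 - 1 / (4 * (b : ℝ)) else 0)
        - (if ixI c j ∈ K then 1 else 0) - k * dr k b) - 3 * er k b ≤ scr (vA w b c) K (ixP c j) (ixO c) ∧
      scr (vA w b c) K (ixP c j) (ixO c) ≤
        tr k b * (1 / (8 * b) + (if ixE c ∈ K then 1 - 1 / (4 * (b : ℝ)) else 0)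
          - (if ixI c j ∈ K then 1 else 0)) + 3 * er k b := by
  have hb' : (1 : ℝ) ≤ b := by exact_mod_cast hb
  have hk : (0 : ℝ) ≤ k := Nat.cast_nonneg k
  have ht := tr_pos (k := k) hb
  have hd' := dr_pos (k := k) hb
  have h1 := (vA_Sm hb hw c).scr_col ho hP (ix_ne c (by simp)) fun x _ => vcol_abs hb c x
  rw [err_eq hb, sum_split c ho] at h1
  have h2 := sum_main (s := fun i => ixI c i ∈ K)
    (f := fun i => vA w b c (ixP c j) (ixI c i) * vA w b c (ixI c i) (ixO c))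
    (u := tr k b * dr k b) (by positivity) j fun i hi _ => by
      rw [vA_O, vc_I, vA_ne c _ (ix_ne c (by simp)), rA_PI, if_neg hi, mul_one]
      exact ⟨by positivity, le_rfl⟩
  have hb8 : (1 : ℝ) / (8 * b) ≤ 1 := by
    rw [div_le_one (by positivity)]; linarith
  have h3 := sum_small (s := fun i => ixP c i ∈ K)
    (f := fun i => vA w b c (ixP c j) (ixP c i) * vA w b c (ixP c i) (ixO c))
    (u := tr k b * (tr k b * dr k b)) (by positivity) fun i hi => by
      have hij : j ≠ i := fun e => hP (e ▸ hi)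
      rw [vA_O, vc_P, vA_ne c _ (ix_ne c (by simp)), rA_PP w b c j i hij]
      refine ⟨by positivity, ?_⟩
      have h0 : 0 ≤ tr k b * dr k b * tr k b := by positivity
      nlinarith
  have h8 : vA w b c (ixP c j) (ixI c j) = tr k b := by
    rw [vA_ne c _ (ix_ne c (by simp)), rA_PI, if_pos rfl]
  have hI : ∀ i, vA w b c (ixI c i) (ixO c) = 1 := fun i => by rw [vA_O, vc_I]
  simp only [hI, h8, mul_one] at h2
  simp only [hI, mul_one] at h1
  rw [vA_O, vA_O, vA_O, vc_P, vc_E, vc_S, vA_ne c _ (ix_ne c (by simp)),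
    vA_ne c _ (ix_ne c (by simp)), rA_PE, rA_PS] at h1
  have h4 := tiny (k := k) hb
  have h9 : 0 ≤ tr k b * dr k b * (tr k b * (b - 3 / 4)) := by
    have : (0 : ℝ) ≤ b - 3 / 4 := by linarith
    positivity
  have h5 : (k : ℝ) * (tr k b * (tr k b * dr k b)) + tr k b * dr k b * (tr k b * (b - 3 / 4)) ≤ er k b := by
    refine le_trans ?_ h4
    have : 0 ≤ tr k b * (tr k b * dr k b) * (1 + 3 / 4) := by positivity
    linarith
  have h10 : 0 ≤ (k : ℝ) * (tr k b * (tr k b * dr k b)) := by positivity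
  have h6 : tr k b / (50 * b) = 2 * er k b := by unfold er; ring
  rw [h6] at h1
  have h7 := abs_le.mp h1
  have he := er_pos (k := k) hb
  split_ifs at h7 h2 ⊢ <;> constructor <;> linarith [h7.1, h7.2, h3.1, h3.2, h2.1, h2.2]

end Pool.Agent.Helper63.NG
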