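import Mathlib
import Pool.Agent.Helper63.NG.Col
import Pool.Agent.Helper5.GKK.Border

/-!
The subset sum matrices are GKK matrices, and limits of strict GKK matrices if no subset has the
sum `b`.
-/

namespace Pool.Agent.Helper63.NG

open Matrix Finset Pool.Agent.Helper85.SVG Pool.Agent.Helper21.GK
open Pool.Agent.Helper5.GKK hiding cx

variable {k n : ℕ} {w : Fin k → ℕ} {b : ℕ}

/-- the heavy entries of the row -/
theorem row_heavy (hb : 1 ≤ b) (hw : ∀ i, w i ≤ b) (c : Fin n ≃ Ix k) {K : Finset (Fin n)}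
    (ho : ixO c ∉ K) {i : Fin n} (hi : i ∉ K) (hio : i ≠ ixO c) (h1 : rA w b c (ixO c) i = 1) :
    0 < scr (rA w b c) K (ixO c) i := by
  have hS := rA_Sm hb hw c
  have h2 := hS.scr_row ho hi hio fun x _ => row_abs hb c x
  have h3 : |∑ x ∈ K, rA w b c (ixO c) x * rA w b c x i| ≤ (2 * k + 2) * (tr k b * (b + 1)) := by
    refine (Finset.abs_sum_le_sum_abs _ _).trans ((Finset.sum_le_sum fun x _ => ?_).trans
      (hS.sum_col ho hi hio))
    rw [abs_mul]
    exact mul_le_of_le_one_left (abs_nonneg _) (row_abs hb c x)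
  have h4 := tr_bounds (k := k) hb
  have h5 : 2 * (tr k b * (b + 1)) * ((2 * k + 2) * ((2 * k + 2) * (tr k b * (b + 1))))
      = 2 * (tr k b * (b + 1) * (2 * k + 2)) ^ 2 := by ring
  have h6 : 0 ≤ tr k b * (b + 1) * (2 * k + 2) := by
    have := tr_pos (k := k) hb
    positivity
  have h7 : (tr k b * (b + 1) * (2 * k + 2)) ^ 2 ≤ 1 / 200 := by nlinarith
  rw [h5, h1] at h2
  have h8 := abs_le.mp h2
  have h9 := abs_le.mp h3
  linarith [h8.1, h9.1, h9.2]

/-- the heavy entries of the column -/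
theorem col_heavy (hb : 1 ≤ b) (hw : ∀ i, w i ≤ b) (c : Fin n ≃ Ix k) {K : Finset (Fin n)}
    (ho : ixO c ∉ K) {i : Fin n} (hi : i ∉ K) (hio : i ≠ ixO c) (h1 : vA w b c i (ixO c) = 1) :
    0 < scr (vA w b c) K i (ixO c) := by
  have hS := vA_Sm hb hw c
  have h2 := hS.scr_col ho hi hio fun x _ => vcol_abs hb c x
  have h3 : |∑ x ∈ K, vA w b c i x * vA w b c x (ixO c)| ≤ (2 * k + 2) * (tr k b * (b + 1)) := by
    refine (Finset.abs_sum_le_sum_abs _ _).trans ((Finset.sum_le_sum fun x _ => ?_).trans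
      (hS.sum_row ho hi hio))
    rw [abs_mul]
    exact mul_le_of_le_one_right (abs_nonneg _) (vcol_abs hb c x)
  have h4 := tr_bounds (k := k) hb
  have h5 : 2 * (tr k b * (b + 1)) * ((2 * k + 2) * ((2 * k + 2) * (tr k b * (b + 1))))
      = 2 * (tr k b * (b + 1) * (2 * k + 2)) ^ 2 := by ring
  have h6 : 0 ≤ tr k b * (b + 1) * (2 * k + 2) := by
    have := tr_pos (k := k) hb
    positivity
  have h7 : (tr k b * (b + 1) * (2 * k + 2)) ^ 2 ≤ 1 / 200 := by nlinarith
  rw [h5, h1] at h2
  have h8 := abs_le.mp h2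
  have h9 := abs_le.mp h3
  linarith [h8.1, h9.1, h9.2]

theorem kd_le {k b : ℕ} (hb : 1 ≤ b) : k * dr k b ≤ 1 / (16 * b) := by
  have hb' : (0 : ℝ) < b := by exact_mod_cast hb
  have h := dr_mul (k := k) hb
  have hd := dr_pos (k := k) hb
  rw [le_div_iff₀ (by positivity)]
  have : 0 ≤ 16 * b * dr k b := by positivity
  nlinarith

/-- the signs of the row and column entries of the border agree -/
theorem border_sign (hb : 1 ≤ b) (hw : ∀ i, w i ≤ b) (c : Fin n ≃ Ix k)
    (hM : ∀ M : Finset (Fin k), ∑ i ∈ M, w i ≠ b) {K : Finset (Fin n)}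
    (ho : ixO c ∉ K) {i : Fin n} (hi : i ∉ K) (hio : i ≠ ixO c) :
    0 < scr (rA w b c) K (ixO c) i * scr (vA w b c) K i (ixO c) := by
  have hb' : (1 : ℝ) ≤ b := by exact_mod_cast hb
  have ht := tr_pos (k := k) hb
  have he := er_pos (k := k) hb
  have hem := er_mul (k := k) hb
  have hkd := kd_le (k := k) hb
  have hkd0 : 0 ≤ k * dr k b := by have := dr_pos (k := k) hb; positivity
  -- 3 e ≤ 3 t / 100
  have he3 : 3 * er k b ≤ 3 / 100 * tr k b := by nlinarith
  obtain ⟨y, rfl⟩ : ∃ y, i = ix c y := ⟨c i, by simp [ix]⟩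
  rcases y with y | y | y
  · fin_cases y
    · exact absurd rfl hio
    · exact mul_pos (row_heavy hb hw c ho hi hio (rA_OE w b c))
        (col_heavy hb hw c ho hi hio (by rw [vA_O]; exact vc_E b c))
    · have hr := abs_le.mp (row_S hb hw c ho hi)
      have hc := abs_le.mp (col_S hb hw c ho hi)
      have hW := Wt_nonneg w c K
      by_cases hE : ixE c ∈ K
      · rw [if_pos hE] at hr hc
        have hp : 0 ≤ tr k b * Wt w c K := by positivity
        refine mul_pos_of_neg_of_neg ?_ ?_
        · change scr (rA w b c) K (ixO c) (ixS c) < 0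
          linarith [hr.2]
        · change scr (vA w b c) K (ixS c) (ixO c) < 0
          linarith [hc.2]
      · rw [if_neg hE] at hr hc
        have hWe := Wt_eq w c K
        have hne := hM (univ.filter fun i => ixI c i ∈ K)
        rcases lt_or_gt_of_ne hne with h | h
        · have h1 : Wt w c K ≤ b - 1 := by
            rw [hWe]
            have : ((∑ i ∈ univ.filter (fun i => ixI c i ∈ K), w i : ℕ) : ℝ) + 1 ≤ b := by
              exact_mod_cast h
            linarith
          have h2 : tr k b * Wt w c K ≤ tr k b * (b - 1) := mul_le_mul_of_nonneg_left h1 ht.le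
          refine mul_pos ?_ ?_
          · change 0 < scr (rA w b c) K (ixO c) (ixS c)
            linarith [hr.1]
          · change 0 < scr (vA w b c) K (ixS c) (ixO c)
            linarith [hc.1]
        · have h1 : (b : ℝ) + 1 ≤ Wt w c K := by
            rw [hWe]
            exact_mod_cast h
          have h2 : tr k b * (b + 1) ≤ tr k b * Wt w c K := mul_le_mul_of_nonneg_left h1 ht.le
          refine mul_pos_of_neg_of_neg ?_ ?_
          · change scr (rA w b c) K (ixO c) (ixS c) < 0
            linarith [hr.2]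
          · change scr (vA w b c) K (ixS c) (ixO c) < 0
            linarith [hc.2]
  · exact mul_pos (row_heavy hb hw c ho hi hio (rA_OI w b c y))
      (col_heavy hb hw c ho hi hio (by rw [vA_O]; exact vc_I b c y))
  · have hr := row_P hb hw c ho y hi
    have hc := col_P hb hw c ho y hi
    -- `1 / b` in terms of `e`
    have h8 : tr k b * (1 / (8 * b)) = 25 / 2 * er k b := by unfold er; field_simp; norm_num
    have h4 : tr k b * (1 / (4 * b)) = 25 * er k b := by unfold er; field_simp; norm_num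
    have h16 : tr k b * (k * dr k b) ≤ 25 / 4 * er k b := by
      calc tr k b * (k * dr k b) ≤ tr k b * (1 / (16 * b)) := mul_le_mul_of_nonneg_left hkd ht.le
        _ = 25 / 4 * er k b := by unfold er; field_simp; norm_num
    have h16' : 0 ≤ tr k b * (k * dr k b) := by positivity
    by_cases hI : ixI c y ∈ K
    · refine mul_pos_of_neg_of_neg ?_ ?_
      · change scr (rA w b c) K (ixO c) (ixP c y) < 0
        by_cases hE : ixE c ∈ K
        · rw [if_pos hE, if_pos hI] at hr; linarith [hr.2]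
        · rw [if_neg hE, if_pos hI] at hr; linarith [hr.2]
      · change scr (vA w b c) K (ixP c y) (ixO c) < 0
        by_cases hE : ixE c ∈ K
        · rw [if_pos hE, if_pos hI] at hc; linarith [hc.2]
        · rw [if_neg hE, if_pos hI] at hc; linarith [hc.2]
    · refine mul_pos ?_ ?_
      · change 0 < scr (rA w b c) K (ixO c) (ixP c y)
        by_cases hE : ixE c ∈ K
        · rw [if_pos hE, if_neg hI] at hr; linarith [hr.1]
        · rw [if_neg hE, if_neg hI] at hr; linarith [hr.1]
      · change 0 < scr (vA w b c) K (ixP c y) (ixO c)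
        by_cases hE : ixE c ∈ K
        · rw [if_pos hE, if_neg hI] at hc; linarith [hc.1]
        · rw [if_neg hE, if_neg hI] at hc; linarith [hc.1]

/-- Schur complement entries inside the block have the signs of the entries -/
theorem block_sign (hb : 1 ≤ b) (hw : ∀ i, 1 ≤ w i ∧ w i ≤ b) (c : Fin n ≃ Ix k)
    {K : Finset (Fin n)} (ho : ixO c ∉ K) {i j : Fin n} (hi : i ∉ K) (hj : j ∉ K) (hij : i ≠ j)
    (hio : i ≠ ixO c) (hjo : j ≠ ixO c) :
    0 < scr (rA w b c) K i j * scr (rA w b c) K j i := by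
  have hb' : (1 : ℝ) ≤ b := by exact_mod_cast hb
  have hk : (0 : ℝ) ≤ k := Nat.cast_nonneg k
  have ht := tr_pos (k := k) hb
  have hS := rA_Sm hb (fun i => (hw i).2) c
  have h1 := hS.scr_close ho hi hio hj hjo
  have h2 := hS.scr_close ho hj hjo hi hio
  have h3 : 3 / 2 * ((2 * k + 2) * (tr k b * (b + 1)) * (tr k b * (b + 1))) ≤
      12 / 100 * (tr k b * dr k b) := by
    have e1 := tr_mul (k := k) hb
    have e2 := dr_mul (k := k) hb
    -- both sides times `16 b (k+1)`
    have e3 : (0 : ℝ) < 16 * b * (k + 1) := by positivity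
    refine le_of_mul_le_mul_left ?_ e3
    calc 16 * b * (k + 1) * (3 / 2 * ((2 * k + 2) * (tr k b * (b + 1)) * (tr k b * (b + 1))))
        = 12 / 100 * tr k b * (400 * (b : ℝ) * ((k : ℝ) + 1) ^ 2 * ((b : ℝ) + 1) ^ 2 * tr k b) := by ring
      _ = 12 / 100 * tr k b * (16 * b * (k + 1) * dr k b) := by rw [e1, e2]
      _ ≤ 16 * b * (k + 1) * (12 / 100 * (tr k b * dr k b)) := le_of_eq (by ring)
  have hd := dr_pos (k := k) hb
  have htd : 0 < tr k b * dr k b := mul_pos ht hd
  have hx' : c i ≠ Sum.inl 0 := fun e => hio (by rw [ixO, ix, ← e, Equiv.symm_apply_apply])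
  have hy' : c j ≠ Sum.inl 0 := fun e => hjo (by rw [ixO, ix, ← e, Equiv.symm_apply_apply])
  have hxy' : c i ≠ c j := fun e => hij (c.injective e)
  have hA : rA w b c i j = tr k b * Hr w b (c i) (c j) := by
    have h := rA_block w b c hx' hy' hxy'
    rwa [ix, ix, Equiv.symm_apply_apply, Equiv.symm_apply_apply] at h
  have hA' : rA w b c j i = tr k b * Hr w b (c j) (c i) := by
    have h := rA_block w b c hy' hx' hxy'.symm
    rwa [ix, ix, Equiv.symm_apply_apply, Equiv.symm_apply_apply] at h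
  have h1' := abs_le.mp (h1.trans h3)
  have h2' := abs_le.mp (h2.trans h3)
  rcases Hr_sign hb (fun i => (hw i).1) (c i) (c j) with ⟨g1, g2⟩ | ⟨g1, g2⟩
  · have e1 := mul_le_mul_of_nonneg_left g1 ht.le
    have e2 := mul_le_mul_of_nonneg_left g2 ht.le
    rw [← hA] at e1
    rw [← hA'] at e2
    exact mul_pos (by linarith [h1'.1]) (by linarith [h2'.1])
  · have e1 := mul_le_mul_of_nonneg_left g1 ht.le
    have e2 := mul_le_mul_of_nonneg_left g2 ht.le
    rw [← hA] at e1
    rw [← hA'] at e2
    exact mul_pos_of_neg_of_neg (by linarith [h1'.2]) (by linarith [h2'.2])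

theorem ap_cx' {M : Matrix (Fin n) (Fin n) ℝ} {K : Finset (Fin n)} {i j : Fin n}
    (hK : 0 < pmr M K) (hi : i ∉ K) (hj : j ∉ K) (hij : i ≠ j) :
    ap (cx M) K i j = ((pmr M K ^ 2 * (scr M K i j * scr M K j i) : ℝ) : ℂ) := by
  have h0 : pm (cx M) K ≠ 0 := by rw [pm_cx]; exact_mod_cast hK.ne'
  rw [ap_eq_sc (cx M) h0 hi hj hij, sc_cx hK.ne', sc_cx hK.ne', pm_cx]
  push_cast
  ring

theorem cx_eq (M : Matrix (Fin n) (Fin n) ℝ) : Pool.Agent.Helper5.GKK.cx M = cx M := rfl

theorem rA_isGKK (hb : 1 ≤ b) (hw : ∀ i, 1 ≤ w i ∧ w i ≤ b) (c : Fin n ≃ Ix k) :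
    IsGKK (cx (rA w b c)) := by
  have hS := rA_Sm hb (fun i => (hw i).2) c
  refine border_isGKK _ (ixO c) (by rw [rA_diag]; exact one_pos) (fun i hi => rA_col w b c i hi) ?_ ?_
  · intro S ho
    rw [cx_eq, pm_cx]
    exact_mod_cast hS.pmr_pos S ho
  · intro K i j ho hi hj hij hio hjo
    rw [cx_eq, ap_cx' (hS.pmr_pos K ho) hi hj hij]
    have h1 := block_sign hb hw c ho hi hj hij hio hjo
    have h2 := hS.pmr_pos K ho
    have h3 : (0 : ℝ) ≤ pmr (rA w b c) K ^ 2 * (scr (rA w b c) K i j * scr (rA w b c) K j i) := by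
      positivity
    exact_mod_cast h3

theorem rA_mem (hb : 1 ≤ b) (hw : ∀ i, 1 ≤ w i ∧ w i ≤ b) (c : Fin n ≃ Ix k)
    (hM : ∀ M : Finset (Fin k), ∑ i ∈ M, w i ≠ b) :
    cx (rA w b c) ∈ closure {B : Matrix (Fin n) (Fin n) ℂ | IsStrictGKK B} := by
  have hw2 := fun i => (hw i).2
  have hS := rA_Sm hb hw2 c
  have hV := vA_Sm hb hw2 c
  have hbr : brd (vA w b c) (ixO c) 0 = rA w b c := by
    ext x y
    by_cases hy : y = ixO c
    · subst hy
      by_cases hx : x = ixO c
      · subst hx
        simp only [brd, of_apply]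
        rw [vA_O, vc_O, rA_diag]; simp
      · rw [rA_col w b c x hx]
        simp [brd, hx]
    · simp only [brd, of_apply]
      rw [vA_ne c x hy]; simp [hy]
  have h := border_mem_closure (vA w b c) (ixO c) (by rw [vA_O, vc_O]; exact one_pos) ?_ ?_
  · rwa [hbr] at h
  · intro S ho
    rw [cx_eq, pm_cx]
    exact_mod_cast hV.pmr_pos S ho
  · intro K i j ho hi hj hij
    have h2 := hV.pmr_pos K ho
    rw [cx_eq, ap_cx' h2 hi hj hij]
    have h3 : 0 < scr (vA w b c) K i j * scr (vA w b c) K j i := by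
      by_cases hio : i = ixO c
      · subst hio
        have := border_sign hb hw2 c hM ho hj (Ne.symm hij)
        rwa [← scr_updateCol (rA w b c) ho (vc b c) (Ne.symm hij)] at this
      · by_cases hjo : j = ixO c
        · subst hjo
          have := border_sign hb hw2 c hM ho hi hio
          rw [← scr_updateCol (rA w b c) ho (vc b c) hio] at this
          rw [mul_comm]
          exact this
        · have := block_sign hb hw c ho hi hj hij hio hjo
          rwa [← scr_updateCol (rA w b c) ho (vc b c) hio,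
            ← scr_updateCol (rA w b c) ho (vc b c) hjo] at this
    have h4 : (0 : ℝ) < pmr (vA w b c) K ^ 2 * (scr (vA w b c) K i j * scr (vA w b c) K j i) := by
      positivity
    exact_mod_cast h4

end Pool.Agent.Helper63.NG
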