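import Mathlib
import Pool.Agent.Helper63.NG.Basic
import Pool.Agent.Helper21.GK.Real

/-!
The compactness argument: if a real matrix `A` is a limit of strict GKK matrices and its last row
has no zero entry, then some nonzero real column satisfies all weak sign conditions.
-/

namespace Pool.Agent.Helper63.NG

open Matrix Finset Filter Topology Pool.Agent.Helper5.GKK Pool.Agent.Helper85.SVG
open Pool.Agent.Helper21.GK
open scoped ComplexOrder

variable {n : ℕ}

theorem nonneg_mul_of_pos {r : ℝ} (hr : 0 ≤ r) {z : ℂ} (hz : 0 < z) : 0 ≤ (r : ℂ) * z := by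
  exact mul_nonneg (by exact_mod_cast hr) hz.le

theorem real_of_mul_nonneg {a : ℝ} (ha : a ≠ 0) {z : ℂ} (h : 0 ≤ (a : ℂ) * z) : z = (z.re : ℂ) := by
  rw [Complex.nonneg_iff, Complex.re_ofReal_mul, Complex.im_ofReal_mul] at h
  have h1 : z.im = 0 := by
    rcases mul_eq_zero.mp h.2.symm with h2 | h2
    · exact absurd h2 ha
    · exact h2
  exact Complex.ext rfl (by simpa using h1)

/-- the Schur complement entries only see the column `o` through `A x o` -/
theorem sc_col (A : Matrix (Fin n) (Fin n) ℂ) {K : Finset (Fin n)} {o : Fin n} (ho : o ∉ K)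
    (z : Fin n → ℂ) (i : Fin n) :
    sc (A.updateCol o z) K i o = z i - ∑ x : K, cf A K i x * z x := by
  have h1 : ∀ x : K, cf (A.updateCol o z) K i x = cf A K i x := by
    intro x
    unfold cf
    refine Finset.sum_congr rfl fun y _ => ?_
    have hy : (y : Fin n) ≠ o := fun h => ho (h ▸ y.2)
    have hQ : Q (A.updateCol o z) K = Q A K := by
      unfold Q
      congr 1
      ext a b
      have hb : (b : Fin n) ≠ o := fun h => ho (h ▸ b.2)
      simp [Matrix.updateCol_apply, hb]
    rw [hQ, Matrix.updateCol_ne hy]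
  rw [sc_eq_cf]
  simp only [h1, Matrix.updateCol_self]

/-- **The weak system.** -/
theorem exists_weak {A : Matrix (Fin n) (Fin n) ℝ} {o : Fin n} (hP : ∀ K, o ∉ K → pmr A K ≠ 0)
    (hx : ∀ i, i ≠ o → A o i ≠ 0) (hn : ∃ i, i ≠ o)
    (hA : cx A ∈ closure {B : Matrix (Fin n) (Fin n) ℂ | IsStrictGKK B}) :
    ∃ z : Fin n → ℝ, (∃ i, i ≠ o ∧ z i ≠ 0) ∧ ∀ (K : Finset (Fin n)) (i : Fin n), o ∉ K → i ∉ K →
      i ≠ o → 0 ≤ scr A K o i * scr (A.updateCol o z) K i o := by
  classical
  obtain ⟨U, hUs, hUA⟩ := mem_closure_iff_ultrafilter.mp hA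
  have hent : ∀ i j, Tendsto (fun X : Matrix (Fin n) (Fin n) ℂ => X i j) U (𝓝 (cx A i j)) := by
    intro i j
    exact ((continuous_apply_apply i j).tendsto (cx A)).mono_left hUA
  have hstr : ∀ᶠ X : Matrix (Fin n) (Fin n) ℂ in (U : Filter _), IsStrictGKK X := hUs
  -- the normaliser
  let N : Matrix (Fin n) (Fin n) ℂ → ℝ := fun X => ∑ i ∈ univ.erase o, ‖X i o‖
  let u : Fin n → Matrix (Fin n) (Fin n) ℂ → ℂ := fun i X => ((N X)⁻¹ : ℝ) * X i o
  have hN : ∀ X : Matrix (Fin n) (Fin n) ℂ, IsStrictGKK X → 0 < N X := by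
    intro X hX
    obtain ⟨i, hi⟩ := hn
    have h1 := sc_mul_pos hX (K := ∅) (i := i) (j := o) (by simp) (by simp) hi
    rw [sc_empty, sc_empty] at h1
    have h2 : X i o ≠ 0 := by
      intro h; rw [h, zero_mul] at h1; exact lt_irrefl _ h1
    exact Finset.sum_pos' (fun _ _ => norm_nonneg _) ⟨i, by simp [hi], norm_pos_iff.mpr h2⟩
  have hN0 : ∀ X, 0 ≤ N X := fun X => Finset.sum_nonneg fun _ _ => norm_nonneg _
  have hle : ∀ i, i ≠ o → ∀ X, ‖u i X‖ ≤ 1 := by
    intro i hi X
    have h1 : ‖X i o‖ ≤ N X :=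
      Finset.single_le_sum (f := fun i => ‖X i o‖) (fun _ _ => norm_nonneg _) (by simp [hi])
    simp only [u, norm_mul, Complex.norm_real, norm_inv, Real.norm_eq_abs, abs_of_nonneg (hN0 X)]
    rcases (hN0 X).eq_or_lt with h | h
    · rw [← h]; simp
    · rw [inv_mul_le_iff₀ h, mul_one]; exact h1
  have hlim : ∀ i, i ≠ o → ∃ ζ : ℂ, Tendsto (u i) U (𝓝 ζ) := by
    intro i hi
    obtain ⟨ζ, _, hζ⟩ := (isCompact_closedBall (0 : ℂ) 1).ultrafilter_le_nhds (U.map (u i)) (by
      rw [le_principal_iff]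
      refine Filter.mem_map.mpr (Filter.Eventually.of_forall fun X => ?_)
      simpa using hle i hi X)
    exact ⟨ζ, hζ⟩
  choose! ζ hζ using hlim
  -- the sum of the norms of the limits is one
  have hsum : ∑ i ∈ univ.erase o, ‖ζ i‖ = 1 := by
    have h1 : Tendsto (fun X => ∑ i ∈ univ.erase o, ‖u i X‖) U (𝓝 (∑ i ∈ univ.erase o, ‖ζ i‖)) :=
      tendsto_finsetSum _ fun i hi => (hζ i (by simpa using hi)).norm
    have h2 : Tendsto (fun X => ∑ i ∈ univ.erase o, ‖u i X‖) U (𝓝 1) := by
      refine tendsto_const_nhds.congr' ?_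
      filter_upwards [hstr] with X hX
      have h3 := hN X hX
      simp only [u, norm_mul, Complex.norm_real, norm_inv, Real.norm_eq_abs, abs_of_pos h3]
      rw [← Finset.mul_sum]
      exact (inv_mul_cancel₀ h3.ne').symm
    exact tendsto_nhds_unique h1 h2
  have hPc : ∀ K : Finset (Fin n), o ∉ K → pm (cx A) K ≠ 0 := by
    intro K hK
    rw [pm_cx]
    exact_mod_cast hP K hK
  -- the weak inequalities in `ℂ`
  have hweak : ∀ (K : Finset (Fin n)) (i : Fin n), o ∉ K → i ∉ K → i ≠ o →
      0 ≤ (scr A K o i : ℂ) * (ζ i - ∑ x : K, cf (cx A) K i x * ζ x) := by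
    intro K i hoK hiK hio
    have t1 : Tendsto (fun X : Matrix (Fin n) (Fin n) ℂ => sc X K o i) U (𝓝 (scr A K o i)) := by
      rw [← sc_cx (hP K hoK)]
      exact tendsto_sc (fun x _ y _ => hent x y) (hPc K hoK) (fun y _ => hent o y)
        (fun y _ => hent y i) (hent o i)
    have t2 : Tendsto (fun X : Matrix (Fin n) (Fin n) ℂ => ((N X)⁻¹ : ℝ) * sc X K i o) U
        (𝓝 (ζ i - ∑ x : K, cf (cx A) K i x * ζ x)) := by
      have h1 : Tendsto (fun X : Matrix (Fin n) (Fin n) ℂ => u i X - ∑ x : K, cf X K i x * u x X) U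
          (𝓝 (ζ i - ∑ x : K, cf (cx A) K i x * ζ x)) := by
        refine (hζ i hio).sub (tendsto_finsetSum _ fun x _ => ?_)
        refine (tendsto_cf (fun x _ y _ => hent x y) (hPc K hoK) (fun y _ => hent i y) x).mul
          (hζ x fun h => hoK (h ▸ x.2))
      refine h1.congr fun X => ?_
      rw [sc_eq_cf, mul_sub, Finset.mul_sum]
      congr 1
      refine Finset.sum_congr rfl fun x _ => ?_
      simp only [u]; ring
    have t3 := t1.mul t2
    refine ge_of_tendsto t3 ?_
    filter_upwards [hstr] with X hX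
    have h1 := sc_mul_pos hX hiK hoK hio
    have h2 : sc X K o i * (((N X)⁻¹ : ℝ) * sc X K i o)
        = (((N X)⁻¹ : ℝ) : ℂ) * (sc X K i o * sc X K o i) := by ring
    rw [h2]
    exact nonneg_mul_of_pos (inv_nonneg.mpr (hN0 X)) h1
  -- the limits are real
  have hreal : ∀ i, i ≠ o → ζ i = ((ζ i).re : ℂ) := by
    intro i hi
    have h1 := hweak ∅ i (by simp) (by simp) hi
    rw [scr_empty] at h1
    simp only [univ_eq_empty, Finset.sum_empty, sub_zero] at h1
    exact real_of_mul_nonneg (hx i hi) h1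
  refine ⟨fun i => (ζ i).re, ?_, ?_⟩
  · by_contra hcon
    push Not at hcon
    have : ∑ i ∈ univ.erase o, ‖ζ i‖ = 0 := by
      refine Finset.sum_eq_zero fun i hi => ?_
      have hi' : i ≠ o := by simpa using hi
      rw [hreal i hi', hcon i hi']
      simp
    rw [hsum] at this
    exact one_ne_zero this
  · intro K i hoK hiK hio
    have h1 := hweak K i hoK hiK hio
    have hPu : pmr (A.updateCol o fun i => (ζ i).re) K ≠ 0 := by
      have : pmr (A.updateCol o fun i => (ζ i).re) K = pmr A K := by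
        unfold pmr
        congr 1
        ext a b
        have hb : (b : Fin n) ≠ o := fun h => hoK (h ▸ b.2)
        simp [Matrix.updateCol_apply, hb]
      rw [this]; exact hP K hoK
    have h2 : (scr (A.updateCol o fun i => (ζ i).re) K i o : ℂ)
        = ζ i - ∑ x : K, cf (cx A) K i x * ζ x := by
      rw [← sc_cx hPu]
      have h3 : cx (A.updateCol o fun i => (ζ i).re) = (cx A).updateCol o fun i => ((ζ i).re : ℂ) := by
        ext a b
        simp only [cx_apply, Matrix.updateCol_apply]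
        split_ifs <;> rfl
      rw [h3, sc_col (cx A) hoK, ← hreal i hio]
      congr 1
      refine Finset.sum_congr rfl fun x _ => ?_
      rw [← hreal x fun h => hoK (h ▸ x.2)]
    rw [← h2] at h1
    exact_mod_cast h1

end Pool.Agent.Helper63.NG
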