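import Mathlib
import Pool.Agent.Helper63.NG.Mem
import Pool.Agent.Helper63.NG.Weak

/-!
The subset sum matrices are not limits of strict GKK matrices if some subset has the sum `b`.
-/

namespace Pool.Agent.Helper63.NG

open Matrix Finset Pool.Agent.Helper85.SVG Pool.Agent.Helper21.GK
open Pool.Agent.Helper5.GKK hiding cx

variable {k n : ℕ} {w : Fin k → ℕ} {b : ℕ}

theorem scr_singleton {M : Matrix (Fin n) (Fin n) ℝ} {x : Fin n} (hp : 0 < pmr M {x})
    (hx : M x x = 1) (i j : Fin n) : scr M {x} i j = M i j - M i x * M x j := by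
  have h := first_order_real M hp (η := 0) (i := i) (j := j) (a := |M i x|) (b := |M x j|)
    (fun y hy y' hy' => by
      rw [mem_singleton.mp hy, mem_singleton.mp hy', hx]; simp) (by simp) (by simp) (by simp) le_rfl
  simp only [mul_zero, zero_mul, sum_singleton] at h
  have := abs_nonpos_iff.mp h
  linarith

theorem row_pos (hb : 1 ≤ b) (c : Fin n ≃ Ix k) (x : Fin n) : 0 < rA w b c (ixO c) x := by
  have hb' : (1 : ℝ) ≤ b := by exact_mod_cast hb
  have ht := tr_pos (k := k) hb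
  obtain ⟨y, rfl⟩ : ∃ y, x = ix c y := ⟨c x, by simp [ix]⟩
  rcases y with y | y | y
  · fin_cases y
    · change 0 < rA w b c (ixO c) (ixO c)
      rw [rA_diag]; norm_num
    · change 0 < rA w b c (ixO c) (ixE c)
      rw [rA_OE]; norm_num
    · change 0 < rA w b c (ixO c) (ixS c)
      rw [rA_OS]; positivity
  · change 0 < rA w b c (ixO c) (ixI c y)
    rw [rA_OI]; norm_num
  · change 0 < rA w b c (ixO c) (ixP c y)
    rw [rA_OP]; exact ht

theorem sb_le {k b : ℕ} (hb : 1 ≤ b) : tr k b * dr k b * b ^ 2 ≤ 1 / 6400 := by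
  have hb' : (1 : ℝ) ≤ b := by exact_mod_cast hb
  have hk : (0 : ℝ) ≤ k := Nat.cast_nonneg k
  have ht := tr_pos (k := k) hb
  have hd := dr_pos (k := k) hb
  have e1 := tr_mul (k := k) hb
  have e2 := dr_mul (k := k) hb
  have e3 : 6400 * (tr k b * dr k b * b ^ 2) * (((k : ℝ) + 1) ^ 3 * ((b : ℝ) + 1) ^ 2) = 1 := by
    calc _ = (400 * (b : ℝ) * ((k : ℝ) + 1) ^ 2 * ((b : ℝ) + 1) ^ 2 * tr k b) *
          (16 * (b : ℝ) * ((k : ℝ) + 1) * dr k b) := by ring
      _ = 1 := by rw [e1, e2, one_mul]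
  have e4 : (1 : ℝ) ≤ ((k : ℝ) + 1) ^ 3 * ((b : ℝ) + 1) ^ 2 := by
    have h1 : (1 : ℝ) ≤ ((k : ℝ) + 1) ^ 3 := one_le_pow₀ (by linarith)
    have h2 : (1 : ℝ) ≤ ((b : ℝ) + 1) ^ 2 := one_le_pow₀ (by linarith)
    nlinarith
  have e5 : 0 ≤ 6400 * (tr k b * dr k b * b ^ 2) := by positivity
  nlinarith

theorem step5 (hb : 1 ≤ b) (hw : ∀ i, 1 ≤ w i ∧ w i ≤ b) (M : Finset (Fin k)) (hM : ∑ i ∈ M, w i = b)
    {t d zE zS : ℝ} (ht : 0 < t) (hd : 0 < d) (hsb : t * d * b ^ 2 ≤ 1 / 6400) (ζ : Fin k → ℝ)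
    (hzE : 0 ≤ zE) (hzI : ∀ i, 0 ≤ ζ i) (h2 : zS ≤ t * (b - 1 / 2) * zE)
    (h4 : ∀ i, t * (1 - 1 / (4 * b)) * zE ≤ t * ζ i + 4 * t * (t * d) * (ζ i + zE))
    (h3 : t * ∑ i ∈ M, w i * ζ i ≤ zS + 2 * (t * d) * (t * b) * ∑ i ∈ M, ζ i) : zE = 0 := by
  have hb' : (1 : ℝ) ≤ b := by exact_mod_cast hb
  refine le_antisymm ?_ hzE
  obtain ⟨s, hs⟩ : ∃ s, s = t * d := ⟨_, rfl⟩
  have hs0 : 0 < s := by rw [hs]; exact mul_pos ht hd
  rw [← hs] at hsb h3
  simp only [← hs] at h4
  have hb2 : (b : ℝ) ≤ b ^ 2 := by nlinarith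
  have hsb1 : s * b ≤ 1 / 6400 := (mul_le_mul_of_nonneg_left hb2 hs0.le).trans hsb
  have hs1 : s ≤ 1 / 6400 := by nlinarith
  have hq0 : (0 : ℝ) < 1 / (4 * b) := by positivity
  have hq1 : (1 : ℝ) / (4 * b) ≤ 1 / 4 := by
    apply one_div_le_one_div_of_le <;> linarith
  have hqb : (b : ℝ) * (1 / (4 * b)) = 1 / 4 := by field_simp
  -- lower bound for the items
  have hit : ∀ i, (1 - 1 / (4 * b) - 8 * s - 2 * (s * b)) * zE ≤ (1 - 2 * (s * b)) * ζ i := by
    intro i
    have h := h4 i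
    have h' : (1 - 1 / (4 * b) - 4 * s) * zE ≤ (1 + 4 * s) * ζ i := by
      have e : t * ((1 - 1 / (4 * b) - 4 * s) * zE) ≤ t * ((1 + 4 * s) * ζ i) := by linarith
      exact le_of_mul_le_mul_left e ht
    have hp : 0 ≤ 1 - 2 * (s * b) - 4 * s := by linarith
    have h1 := mul_le_mul_of_nonneg_left h' hp
    have h2 : (1 - 2 * (s * b) - 4 * s) * ((1 + 4 * s) * ζ i) ≤ (1 - 2 * (s * b)) * ζ i := by
      have hsb0 : 0 ≤ s * (s * b) := by positivity
      have : (1 - 2 * (s * b) - 4 * s) * (1 + 4 * s) ≤ 1 - 2 * (s * b) := by nlinarith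
      calc _ = (1 - 2 * (s * b) - 4 * s) * (1 + 4 * s) * ζ i := by ring
        _ ≤ _ := mul_le_mul_of_nonneg_right this (hzI i)
    have h3 : (1 - 1 / (4 * b) - 8 * s - 2 * (s * b)) * zE ≤
        (1 - 2 * (s * b) - 4 * s) * ((1 - 1 / (4 * b) - 4 * s) * zE) := by
      have : 1 - 1 / (4 * b) - 8 * s - 2 * (s * b) ≤
          (1 - 2 * (s * b) - 4 * s) * (1 - 1 / (4 * (b : ℝ)) - 4 * s) := by
        have e1 : 0 ≤ (2 * (s * b) + 4 * s) * (1 / (4 * (b : ℝ)) + 4 * s) := by positivity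
        linarith
      calc _ ≤ (1 - 2 * (s * b) - 4 * s) * (1 - 1 / (4 * (b : ℝ)) - 4 * s) * zE :=
            mul_le_mul_of_nonneg_right this hzE
        _ = _ := by ring
    linarith
  have hsumM : (∑ i ∈ M, (w i : ℝ)) = b := by
    have : ((∑ i ∈ M, w i : ℕ) : ℝ) = b := by rw [hM]
    rw [← this]; push_cast; rfl
  have h8 : b * ((1 - 1 / (4 * b) - 8 * s - 2 * (s * b)) * zE) ≤
      ∑ i ∈ M, (w i * ζ i) - 2 * (s * b) * ∑ i ∈ M, ζ i := by
    have e0 : b * ((1 - 1 / (4 * b) - 8 * s - 2 * (s * b)) * zE)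
        = ∑ i ∈ M, w i * ((1 - 1 / (4 * b) - 8 * s - 2 * (s * b)) * zE) := by
      rw [← sum_mul, hsumM]
    rw [e0, mul_sum, ← sum_sub_distrib]
    refine sum_le_sum fun i _ => ?_
    have hwi : (1 : ℝ) ≤ w i := by exact_mod_cast (hw i).1
    have h9 := mul_le_mul_of_nonneg_left (hit i) (by linarith : (0 : ℝ) ≤ w i)
    have h10 : (w i : ℝ) * ((1 - 2 * (s * b)) * ζ i) ≤ w i * ζ i - 2 * (s * b) * ζ i := by
      have hsb0 : 0 ≤ s * b := by positivity
      have : 0 ≤ (w i - 1) * (2 * (s * b) * ζ i) := by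
        have := hzI i
        have : (0 : ℝ) ≤ w i - 1 := by linarith
        positivity
      linarith
    linarith
  have h11 : t * (b * ((1 - 1 / (4 * b) - 8 * s - 2 * (s * b)) * zE)) ≤ t * ((b - 1 / 2) * zE) := by
    have := mul_le_mul_of_nonneg_left h8 ht.le
    linarith
  have h12 := le_of_mul_le_mul_left h11 ht
  have h13 : (b : ℝ) * (1 - 1 / (4 * b) - 8 * s - 2 * (s * b))
      = b - 1 / 4 - 8 * (s * b) - 2 * (s * b ^ 2) := by
    calc _ = (b : ℝ) - b * (1 / (4 * b)) - 8 * (s * b) - 2 * (s * b ^ 2) := by ring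
      _ = _ := by rw [hqb]
  have h14 : (b - 1 / 4 - 8 * (s * b) - 2 * (s * b ^ 2)) * zE ≤ (b - 1 / 2) * zE := by
    rw [← h13]; linarith
  have h15 : (1 / 4 - 8 * (s * b) - 2 * (s * b ^ 2)) * zE ≤ 0 := by linarith
  have h16 : 0 < 1 / 4 - 8 * (s * b) - 2 * (s * b ^ 2) := by linarith
  by_contra hc
  push Not at hc
  linarith [mul_pos h16 hc]

theorem rA_not_mem (hb : 1 ≤ b) (hw : ∀ i, 1 ≤ w i ∧ w i ≤ b) (c : Fin n ≃ Ix k)
    (M : Finset (Fin k)) (hM : ∑ i ∈ M, w i = b) :
    cx (rA w b c) ∉ closure {B : Matrix (Fin n) (Fin n) ℂ | IsStrictGKK B} := by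
  intro hA
  have hw2 := fun i => (hw i).2
  have hb' : (1 : ℝ) ≤ b := by exact_mod_cast hb
  have hk : (0 : ℝ) ≤ k := Nat.cast_nonneg k
  have ht := tr_pos (k := k) hb
  have hd := dr_pos (k := k) hb
  have he := er_pos (k := k) hb
  have hem := er_mul (k := k) hb
  have he3 : 3 * er k b ≤ 3 / 100 * tr k b := by nlinarith
  have hS := rA_Sm hb hw2 c
  obtain ⟨z, ⟨i0, hi0, hz0⟩, hz⟩ := exists_weak (A := rA w b c) (o := ixO c)
    (fun K hK => (hS.pmr_pos K hK).ne') (fun i _ => (row_pos hb c i).ne') ⟨ixE c, ix_ne c (by simp)⟩ hA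
  set Z := (rA w b c).updateCol (ixO c) z with hZ
  have hSZ : Sm Z (ixO c) (tr k b * (b + 1)) (2 * k + 2) := hS.updateCol z
  have hZO : ∀ x, Z x (ixO c) = z x := fun x => by simp [hZ]
  have hZn : ∀ x y, y ≠ ixO c → Z x y = rA w b c x y := fun x y hy => by simp [hZ, hy]
  -- distinctness
  have nEO : ixE c ≠ ixO c := ix_ne c (by simp)
  have nSO : ixS c ≠ ixO c := ix_ne c (by simp)
  have nIO : ∀ i, ixI c i ≠ ixO c := fun i => ix_ne c (by simp)
  have nPO : ∀ i, ixP c i ≠ ixO c := fun i => ix_ne c (by simp)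
  have nSE : ixS c ≠ ixE c := ix_ne c (by simp)
  have nIE : ∀ i, ixI c i ≠ ixE c := fun i => ix_ne c (by simp)
  have nPE : ∀ i, ixP c i ≠ ixE c := fun i => ix_ne c (by simp)
  have nSI : ∀ i, ixS c ≠ ixI c i := fun i => ix_ne c (by simp)
  have nPI : ∀ i j, ixP c i ≠ ixI c j := fun i j => ix_ne c (by simp)
  -- nonnegativity
  have hnn : ∀ x, x ≠ ixO c → 0 ≤ z x := by
    intro x hx
    have h := hz ∅ x (by simp) (by simp) hx
    rw [scr_empty, scr_empty, hZO] at h
    exact nonneg_of_mul_nonneg_right h (row_pos hb c x)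
  have hzE := hnn _ nEO
  have hzS := hnn _ nSO
  have hzI := fun i => hnn _ (nIO i)
  have hzP := fun i => hnn _ (nPO i)
  have sE : ixO c ∉ ({ixE c} : Finset (Fin n)) := by simp
  have sI : ∀ i, ixO c ∉ ({ixI c i} : Finset (Fin n)) := fun i => by simp
  -- step 2
  have h2 : z (ixS c) ≤ tr k b * (b - 1 / 2) * z (ixE c) := by
    have h := hz {ixE c} (ixS c) sE (by simp) nSO
    rw [scr_singleton (hS.pmr_pos _ sE) (rA_diag w b c _),
      scr_singleton (hSZ.pmr_pos _ sE) (hSZ.diag _ nEO), hZO, hZO, hZn _ _ nEO, rA_OS, rA_OE, rA_ES,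
      rA_SE] at h
    by_contra hc
    push Not at hc
    have : (tr k b * (b + 1 / 2) - 1 * (tr k b * (b + 1))) *
      (z (ixS c) - tr k b * (b - 1 / 2) * z (ixE c)) < 0 :=
      mul_neg_of_neg_of_pos (by linarith) (by linarith)
    linarith
  -- step 6 (a)
  have h6 : ∀ i, tr k b * w i * z (ixI c i) ≤ z (ixS c) := by
    intro i
    have h := hz {ixI c i} (ixS c) (sI i) (by simp) nSO
    have hwi : (w i : ℝ) ≤ b := by exact_mod_cast hw2 i
    rw [scr_singleton (hS.pmr_pos _ (sI i)) (rA_diag w b c _),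
      scr_singleton (hSZ.pmr_pos _ (sI i)) (hSZ.diag _ (nIO i)), hZO, hZO, hZn _ _ (nIO i), rA_OS,
      rA_OI, rA_IS, rA_SI] at h
    have hp : 0 < tr k b * (b + 1 / 2) - 1 * (tr k b * w i) := by nlinarith
    have := nonneg_of_mul_nonneg_right h hp
    linarith
  -- step 6 (b)
  have h7 : ∀ i, z (ixP c i) ≤ tr k b * z (ixI c i) := by
    intro i
    have h := hz {ixI c i} (ixP c i) (sI i) (by simp) (nPO i)
    rw [scr_singleton (hS.pmr_pos _ (sI i)) (rA_diag w b c _),
      scr_singleton (hSZ.pmr_pos _ (sI i)) (hSZ.diag _ (nIO i)), hZO, hZO, hZn _ _ (nIO i), rA_OP,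
      rA_OI, rA_IP, if_pos rfl, rA_PI, if_pos rfl] at h
    by_contra hc
    push Not at hc
    have : (tr k b - 1 * (tr k b * 2)) * (z (ixP c i) - tr k b * z (ixI c i)) < 0 :=
      mul_neg_of_neg_of_pos (by linarith) (by linarith)
    linarith
  -- step 4
  have h4 : ∀ i, tr k b * (1 - 1 / (4 * b)) * z (ixE c) ≤ tr k b * z (ixI c i)
      + 4 * tr k b * (tr k b * dr k b) * (z (ixI c i) + z (ixE c)) := by
    intro i
    have hoK : ixO c ∉ ({ixI c i, ixE c} : Finset (Fin n)) := by simp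
    have hPK : ixP c i ∉ ({ixI c i, ixE c} : Finset (Fin n)) := by simp
    have h := hz {ixI c i, ixE c} (ixP c i) hoK hPK (nPO i)
    have hr := (row_P hb hw2 c hoK i hPK).2
    rw [if_pos (by simp), if_pos (by simp)] at hr
    have hneg : scr (rA w b c) {ixI c i, ixE c} (ixO c) (ixP c i) < 0 := by linarith
    have hle : scr Z {ixI c i, ixE c} (ixP c i) (ixO c) ≤ 0 := by
      by_contra hc
      push Not at hc
      linarith [mul_neg_of_neg_of_pos hneg hc]
    have hcard : (({ixI c i, ixE c} : Finset (Fin n)).card : ℝ) = 2 := by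
      rw [card_pair (nIE i)]; norm_num
    have h41 : (1 : ℝ) / (4 * b) ≤ 1 := by
      rw [div_le_one (by positivity)]; linarith
    have h42 : (0 : ℝ) < 1 / (4 * b) := by positivity
    have hs1 : tr k b * dr k b ≤ 1 / 6400 := by
      have := sb_le (k := k) hb
      have : 0 ≤ tr k b * dr k b := by positivity
      have : (1 : ℝ) ≤ b ^ 2 := one_le_pow₀ hb'
      nlinarith
    have hf := first_order_real Z (hSZ.pmr_pos _ hoK) (η := tr k b * dr k b) (i := ixP c i)
      (j := ixO c) (a := 2 * tr k b) (b := z (ixI c i) + z (ixE c)) (by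
        intro x hx y hy
        rcases mem_insert.mp hx with rfl | hx
        · rcases mem_insert.mp hy with rfl | hy
          · rw [hSZ.diag _ (nIO i), if_pos rfl]; simp; positivity
          · rw [mem_singleton.mp hy, if_neg (nIE i), hZn _ _ nEO, rA_IE, sub_zero,
              abs_of_pos (by positivity)]
        · rw [mem_singleton.mp hx]
          rcases mem_insert.mp hy with rfl | hy
          · rw [if_neg (Ne.symm (nIE i)), hZn _ _ (nIO i), rA_EI, sub_zero,
              abs_of_pos (by positivity)]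
          · rw [mem_singleton.mp hy, hSZ.diag _ nEO, if_pos rfl]; simp; positivity)
      (by rw [hcard]; linarith)
      (by
        rw [sum_pair (nIE i), hZn _ _ (nIO i), hZn _ _ nEO, rA_PI, if_pos rfl, rA_PE, abs_of_pos ht,
          abs_mul, abs_of_pos ht, abs_neg, abs_of_nonneg (by linarith)]
        nlinarith)
      (by
        rw [sum_pair (nIE i), hZO, hZO, abs_of_nonneg (hzI i), abs_of_nonneg hzE])
      (by positivity)
    rw [sum_pair (nIE i), hZO, hZO, hZO, hZn _ _ (nIO i), hZn _ _ nEO, rA_PI, if_pos rfl, rA_PE] at hf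
    have hf1 := (abs_le.mp hf).1
    have := hzP i
    linarith
  -- step 3
  have h3 : tr k b * ∑ i ∈ M, w i * z (ixI c i) ≤ z (ixS c)
      + 2 * (tr k b * dr k b) * (tr k b * b) * ∑ i ∈ M, z (ixI c i) := by
    have hinj : Function.Injective (ixI c) := by
      intro i j h
      have := c.symm.injective h
      simpa using this
    set K : Finset (Fin n) := M.map ⟨ixI c, hinj⟩ with hK
    have hmem : ∀ x, x ∈ K ↔ ∃ i ∈ M, ixI c i = x := fun x => by simp [hK]
    have hoK : ixO c ∉ K := by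
      rw [hmem]; rintro ⟨i, _, h⟩; exact nIO i h
    have hEK : ixE c ∉ K := by
      rw [hmem]; rintro ⟨i, _, h⟩; exact nIE i h
    have hSK : ixS c ∉ K := by
      rw [hmem]; rintro ⟨i, _, h⟩; exact nSI i h.symm
    have hW : Wt w c K = b := by
      rw [Wt_eq]
      have : univ.filter (fun i => ixI c i ∈ K) = M := by
        ext i
        rw [mem_filter, hmem]
        constructor
        · rintro ⟨_, j, hj, e⟩
          rwa [← hinj e]
        · exact fun hi => ⟨mem_univ _, i, hi, rfl⟩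
      rw [this, hM]
    have hr := (abs_le.mp (row_S hb hw2 c hoK hSK)).1
    rw [if_neg hEK, hW] at hr
    have hpos : 0 < scr (rA w b c) K (ixO c) (ixS c) := by linarith
    have h := hz K (ixS c) hoK hSK nSO
    have hge := nonneg_of_mul_nonneg_right h hpos
    have hsum1 : ∑ x ∈ K, |Z (ixS c) x| = tr k b * b := by
      rw [hK, sum_map]
      have : ((∑ i ∈ M, w i : ℕ) : ℝ) = b := by rw [hM]
      rw [← this]
      push_cast
      rw [mul_sum]
      refine sum_congr rfl fun i _ => ?_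
      change |Z (ixS c) (ixI c i)| = _
      rw [hZn _ _ (nIO i), rA_SI, abs_of_nonneg (by positivity)]
    have hsum2 : ∑ x ∈ K, |Z x (ixO c)| = ∑ i ∈ M, z (ixI c i) := by
      rw [hK, sum_map]
      refine sum_congr rfl fun i _ => ?_
      change |Z (ixI c i) (ixO c)| = _
      rw [hZO, abs_of_nonneg (hzI i)]
    have hsum3 : ∑ x ∈ K, Z (ixS c) x * Z x (ixO c) = tr k b * ∑ i ∈ M, w i * z (ixI c i) := by
      rw [hK, sum_map, mul_sum]
      refine sum_congr rfl fun i _ => ?_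
      change Z (ixS c) (ixI c i) * Z (ixI c i) (ixO c) = _
      rw [hZO, hZn _ _ (nIO i), rA_SI]; ring
    have hcard : (K.card : ℝ) ≤ k := by
      rw [hK, card_map]
      have := card_le_univ M
      rw [Fintype.card_fin] at this
      exact_mod_cast this
    have hf := first_order_real Z (hSZ.pmr_pos _ hoK) (η := tr k b * dr k b) (i := ixS c)
      (j := ixO c) (a := tr k b * b) (b := ∑ i ∈ M, z (ixI c i)) (by
        intro x hx y hy
        obtain ⟨i, _, rfl⟩ := (hmem x).mp hx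
        obtain ⟨j, _, rfl⟩ := (hmem y).mp hy
        by_cases hij : i = j
        · subst hij
          rw [hSZ.diag _ (nIO i), if_pos rfl]; simp; positivity
        · rw [if_neg (fun e => hij (hinj e)), hZn _ _ (nIO j), rA_II w b c i j hij, sub_zero,
            abs_of_pos (by positivity)])
      (by
        have h1 : (K.card : ℝ) * (tr k b * dr k b) ≤ k * (tr k b * dr k b) :=
          mul_le_mul_of_nonneg_right hcard (by positivity)
        have h2 := kd_le (k := k) hb
        have h3 : (1 : ℝ) / (16 * b) ≤ 1 / 16 := by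
          apply one_div_le_one_div_of_le <;> linarith
        have h4 : tr k b ≤ 1 := by
          have := tr_bounds (k := k) hb
          have : 0 ≤ tr k b * (b * (2 * k + 2) + (2 * k + 1)) := by positivity
          nlinarith
        have h5 : 0 ≤ k * dr k b := by positivity
        nlinarith)
      (by rw [hsum1]) (by rw [hsum2]) (by positivity)
    rw [hsum3, hZO] at hf
    have hf1 := (abs_le.mp hf).2
    linarith
  -- step 5
  have h5 : z (ixE c) = 0 :=
    step5 hb hw M hM ht hd (sb_le hb) (fun i => z (ixI c i)) hzE hzI h2 h4 h3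
  have hS0 : z (ixS c) = 0 := by
    rw [h5, mul_zero] at h2
    linarith
  have hI0 : ∀ i, z (ixI c i) = 0 := by
    intro i
    have h := h6 i
    rw [hS0] at h
    have hwi : (1 : ℝ) ≤ w i := by exact_mod_cast (hw i).1
    have hp : 0 < tr k b * w i := by positivity
    have := hzI i
    nlinarith
  have hP0 : ∀ i, z (ixP c i) = 0 := by
    intro i
    have h := h7 i
    rw [hI0, mul_zero] at h
    exact le_antisymm h (hzP i)
  apply hz0
  obtain ⟨y, rfl⟩ : ∃ y, i0 = ix c y := ⟨c i0, by simp [ix]⟩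
  rcases y with y | y | y
  · fin_cases y
    · exact absurd rfl hi0
    · exact h5
    · exact hS0
  · exact hI0 y
  · exact hP0 y

end Pool.Agent.Helper63.NG
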